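import Mathlib

/-!
# Pebbling walks
-/

set_option autoImplicit false

namespace Pool.Agent.W953.PT

section walk

variable {V : Type} [DecidableEq V]

/-- one step of the pebble game (or no change) -/
def Step (P : V → Finset V) (S S' : Finset V) : Prop :=
  S' = S ∨ (∃ v, P v ⊆ S ∧ S' = insert v S) ∨ ∃ v, S' = S.erase v

/-- a pebbling walk -/
def Peb (P : V → Finset V) (c : ℕ → Finset V) : Prop := ∀ τ, Step P (c τ) (c (τ + 1))

/-- the vertex has a pebble at some time in `[s, t]` -/
def Tch (c : ℕ → Finset V) (s t : ℕ) (v : V) : Prop := ∃ τ, s ≤ τ ∧ τ ≤ t ∧ v ∈ c τ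

variable {P : V → Finset V} {c : ℕ → Finset V}

omit [DecidableEq V] in
lemma Tch.mono {s t s' t' : ℕ} {v : V} (h : Tch c s t v) (hs : s' ≤ s) (ht : t ≤ t') :
    Tch c s' t' v := by
  obtain ⟨τ, h1, h2, h3⟩ := h
  exact ⟨τ, by omega, by omega, h3⟩

/-- a vertex that gets a pebble has predecessors with pebbles before -/
lemma Peb.back (hc : Peb P c) {s t : ℕ} {v : V} (h : Tch c s t v) (hs : v ∉ c s) {u : V}
    (hu : u ∈ P v) : Tch c s t u := by
  classical
  obtain ⟨τ, h1, h2, h3⟩ := h
  have hex : ∃ k, v ∈ c (s + k) := ⟨τ - s, by rwa [Nat.add_sub_cancel' h1]⟩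
  set k := Nat.find hex with hk
  have hk1 : v ∈ c (s + k) := Nat.find_spec hex
  have hk0 : k ≠ 0 := by
    intro h0
    rw [h0, Nat.add_zero] at hk1
    exact hs hk1
  obtain ⟨j, hj⟩ := Nat.exists_eq_succ_of_ne_zero hk0
  have hj1 : v ∉ c (s + j) := Nat.find_min hex (by omega)
  have hkle : k ≤ τ - s := Nat.find_min' hex (by rwa [Nat.add_sub_cancel' h1])
  have hst := hc (s + j)
  have hk2 : v ∈ c (s + j + 1) := by
    rw [show s + j + 1 = s + k by omega]
    exact hk1
  rcases hst with h | ⟨w, h4, h5⟩ | ⟨w, h5⟩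
  · rw [h] at hk2
    exact absurd hk2 hj1
  · rw [h5, Finset.mem_insert] at hk2
    rcases hk2 with h6 | h6
    · rw [← h6] at h4
      exact ⟨s + j, by omega, by omega, h4 hu⟩
    · exact absurd h6 hj1
  · rw [h5] at hk2
    exact absurd (Finset.mem_of_mem_erase hk2) hj1

end walk

section count

variable {V : Type} [DecidableEq V] {X : Type} [Fintype X] [DecidableEq X]

open Classical in
/-- the indices of the vertices `f x` that are touched in `[s, t]` -/
noncomputable def T (c : ℕ → Finset V) (s t : ℕ) (f : X → V) : Finset X :=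
  Finset.univ.filter (fun x => Tch c s t (f x))

variable {P : V → Finset V} {c : ℕ → Finset V}

omit [DecidableEq V] [DecidableEq X] in
lemma mem_T {s t : ℕ} {f : X → V} {x : X} : x ∈ T c s t f ↔ Tch c s t (f x) := by
  classical
  simp [T]

omit [DecidableEq V] [DecidableEq X] in
lemma T_mono {s t s' t' : ℕ} (f : X → V) (hs : s' ≤ s) (ht : t ≤ t') :
    T c s t f ⊆ T c s' t' f := by
  intro x hx
  rw [mem_T] at hx ⊢
  exact hx.mono hs ht

omit [DecidableEq V] [DecidableEq X] in
lemma T_card_mono {s t s' t' : ℕ} (f : X → V) (hs : s' ≤ s) (ht : t ≤ t') :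
    (T c s t f).card ≤ (T c s' t' f).card := Finset.card_le_card (T_mono f hs ht)

omit [DecidableEq V] in
lemma T_split (s m t : ℕ) (f : X → V) : T c s t f ⊆ T c s m f ∪ T c (m + 1) t f := by
  intro x hx
  rw [Finset.mem_union, mem_T, mem_T]
  rw [mem_T] at hx
  obtain ⟨τ, h1, h2, h3⟩ := hx
  by_cases h : τ ≤ m
  · exact Or.inl ⟨τ, h1, h, h3⟩
  · exact Or.inr ⟨τ, by omega, h2, h3⟩

omit [DecidableEq V] in
lemma T_split_card (s m t : ℕ) (f : X → V) :
    (T c s t f).card ≤ (T c s m f).card + (T c (m + 1) t f).card := by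
  classical
  exact (Finset.card_le_card (T_split s m t f)).trans (Finset.card_union_le _ _)

lemma card_preim_le {f : X → V} (hf : Function.Injective f) (S : Finset V) :
    (Finset.univ.filter (fun x => f x ∈ S)).card ≤ S.card := by
  refine Finset.card_le_card_of_injOn f (fun x hx => ?_) (fun x _ y _ h => hf h)
  exact (Finset.mem_filter.mp (Finset.mem_coe.mp hx)).2

lemma T_single {f : X → V} (hf : Function.Injective f) (s : ℕ) :
    (T c s s f).card ≤ (c s).card := by
  refine le_trans (Finset.card_le_card ?_) (card_preim_le hf (c s))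
  intro x hx
  rw [mem_T] at hx
  obtain ⟨τ, h1, h2, h3⟩ := hx
  rw [Finset.mem_filter]
  have : τ = s := by omega
  rw [this] at h3
  exact ⟨Finset.mem_univ _, h3⟩

/-- one stage back -/
lemma Peb.stage (hc : Peb P c) {f f' : X → V} (hf' : Function.Injective f')
    (h : ∀ x, f x ∈ P (f' x)) (s t : ℕ) :
    (T c s t f').card ≤ (T c s t f).card + (c s).card := by
  have h1 : T c s t f' ⊆ T c s t f ∪ Finset.univ.filter (fun x => f' x ∈ c s) := by
    intro x hx
    rw [Finset.mem_union, Finset.mem_filter]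
    by_cases hxs : f' x ∈ c s
    · exact Or.inr ⟨Finset.mem_univ _, hxs⟩
    · exact Or.inl (mem_T.mpr (hc.back (mem_T.mp hx) hxs (h x)))
  have h2 := Finset.card_le_card h1
  have h3 := Finset.card_union_le (T c s t f) (Finset.univ.filter (fun x => f' x ∈ c s))
  have h4 := card_preim_le hf' (c s)
  omega

/-- one stage back, two to one -/
lemma Peb.stage_two (hc : Peb P c) {f : X → V} {f' : X × Bool → V}
    (hf' : Function.Injective f') (h : ∀ x, f x.1 ∈ P (f' x)) (s t : ℕ) :
    (T c s t f').card ≤ 2 * (T c s t f).card + (c s).card := by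
  have h1 : T c s t f' ⊆ (T c s t f) ×ˢ (Finset.univ : Finset Bool) ∪
      Finset.univ.filter (fun x => f' x ∈ c s) := by
    intro x hx
    rw [Finset.mem_union, Finset.mem_filter]
    by_cases hxs : f' x ∈ c s
    · exact Or.inr ⟨Finset.mem_univ _, hxs⟩
    · refine Or.inl (Finset.mem_product.mpr ⟨?_, Finset.mem_univ _⟩)
      exact mem_T.mpr (hc.back (mem_T.mp hx) hxs (h x))
  have h2 := Finset.card_le_card h1
  have h3 := Finset.card_union_le ((T c s t f) ×ˢ (Finset.univ : Finset Bool))
    (Finset.univ.filter (fun x => f' x ∈ c s))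
  have h4 := card_preim_le hf' (c s)
  rw [Finset.card_product, Finset.card_univ, Fintype.card_bool] at h3
  omega

/-- one stage back, one to two -/
lemma Peb.stage_half (hc : Peb P c) {f : X × Bool → V} {f' : X → V}
    (hf' : Function.Injective f') (h : ∀ x b, f (x, b) ∈ P (f' x)) (s t : ℕ) :
    2 * (T c s t f').card ≤ (T c s t f).card + 2 * (c s).card := by
  have h1 : T c s t f' ⊆ (T c s t f').filter (fun x => f' x ∉ c s) ∪
      Finset.univ.filter (fun x => f' x ∈ c s) := by
    intro x hx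
    rw [Finset.mem_union, Finset.mem_filter, Finset.mem_filter]
    by_cases hxs : f' x ∈ c s
    · exact Or.inr ⟨Finset.mem_univ _, hxs⟩
    · exact Or.inl ⟨hx, hxs⟩
  have h2 := Finset.card_le_card h1
  have h3 := Finset.card_union_le ((T c s t f').filter (fun x => f' x ∉ c s))
    (Finset.univ.filter (fun x => f' x ∈ c s))
  have h4 := card_preim_le hf' (c s)
  have h5 : ((T c s t f').filter (fun x => f' x ∉ c s)) ×ˢ (Finset.univ : Finset Bool) ⊆
      T c s t f := by
    intro p hp
    obtain ⟨h6, -⟩ := Finset.mem_product.mp hp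
    obtain ⟨h7, h8⟩ := Finset.mem_filter.mp h6
    exact mem_T.mpr (hc.back (mem_T.mp h7) h8 (h p.1 p.2))
  have h6 := Finset.card_le_card h5
  rw [Finset.card_product, Finset.card_univ, Fintype.card_bool] at h6
  omega

/-- the last time with a property -/
lemma last_time (L : ℕ → Prop) {a u : ℕ} (hau : a ≤ u) (ha : L a) :
    ∃ w, a ≤ w ∧ w ≤ u ∧ L w ∧ ∀ τ, w < τ → τ ≤ u → ¬ L τ := by
  classical
  refine ⟨Nat.findGreatest L u, Nat.le_findGreatest hau ha, Nat.findGreatest_le u,
    Nat.findGreatest_spec hau ha, fun τ h1 h2 => ?_⟩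
  exact Nat.findGreatest_is_greatest h1 h2

/-- the first time with a property -/
lemma first_time (L : ℕ → Prop) {s t : ℕ} (h : ∃ τ, s ≤ τ ∧ τ ≤ t ∧ L τ) :
    ∃ w, s ≤ w ∧ w ≤ t ∧ L w ∧ ∀ τ, s ≤ τ → τ < w → ¬ L τ := by
  classical
  have hex : ∃ τ, s ≤ τ ∧ L τ := by
    obtain ⟨τ, h1, _, h3⟩ := h
    exact ⟨τ, h1, h3⟩
  obtain ⟨τ, h1, h2, h3⟩ := h
  refine ⟨Nat.find hex, (Nat.find_spec hex).1, (Nat.find_min' hex ⟨h1, h3⟩).trans h2,
    (Nat.find_spec hex).2, fun τ' h4 h5 h6 => ?_⟩
  exact Nat.find_min hex h5 ⟨h4, h6⟩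

end count

section proj

variable {V W : Type} [DecidableEq V] [DecidableEq W] [Fintype W]

/-- the pebbles on a subgraph -/
def pr (ι : W → V) (c : ℕ → Finset V) (τ : ℕ) : Finset W :=
  Finset.univ.filter (fun w => ι w ∈ c τ)

lemma pr_peb {P : V → Finset V} {Q : W → Finset W} {c : ℕ → Finset V} (hc : Peb P c)
    {ι : W → V} (hι : Function.Injective ι) (hPQ : ∀ w, ∀ u ∈ Q w, ι u ∈ P (ι w)) :
    Peb Q (pr ι c) := by
  intro τ
  rcases hc τ with h | ⟨v, h1, h2⟩ | ⟨v, h2⟩
  · left
    unfold pr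
    rw [h]
  · by_cases hv : ∃ w, ι w = v
    · obtain ⟨w, rfl⟩ := hv
      right; left
      refine ⟨w, ?_, ?_⟩
      · intro u hu
        exact Finset.mem_filter.mpr ⟨Finset.mem_univ _, h1 (hPQ w u hu)⟩
      · ext x
        simp only [pr, h2, Finset.mem_filter, Finset.mem_univ, true_and, Finset.mem_insert,
          hι.eq_iff]
    · left
      ext x
      simp only [pr, h2, Finset.mem_filter, Finset.mem_univ, true_and, Finset.mem_insert]
      constructor
      · rintro (h | h)
        · exact absurd ⟨x, h⟩ hv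
        · exact h
      · exact Or.inr
  · by_cases hv : ∃ w, ι w = v
    · obtain ⟨w, rfl⟩ := hv
      right; right
      refine ⟨w, ?_⟩
      ext x
      simp only [pr, h2, Finset.mem_filter, Finset.mem_univ, true_and, Finset.mem_erase,
        ne_eq, hι.eq_iff]
    · left
      ext x
      simp only [pr, h2, Finset.mem_filter, Finset.mem_univ, true_and, Finset.mem_erase]
      constructor
      · exact fun h => h.2
      · exact fun h => ⟨fun e => hv ⟨x, e⟩, h⟩

lemma pr_card {c : ℕ → Finset V} {ι : W → V} (hι : Function.Injective ι) (τ : ℕ) :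
    (pr ι c τ).card ≤ (c τ).card := by
  refine Finset.card_le_card_of_injOn ι (fun x hx => ?_) (fun x _ y _ h => hι h)
  exact (Finset.mem_filter.mp (Finset.mem_coe.mp hx)).2

lemma pr_card_add {c : ℕ → Finset V} {ι κ : W → V} (hι : Function.Injective ι)
    (hκ : Function.Injective κ) (hd : ∀ x y, ι x ≠ κ y) (τ : ℕ) :
    (pr ι c τ).card + (pr κ c τ).card ≤ (c τ).card := by
  rw [← Finset.card_image_of_injective (pr ι c τ) hι,
    ← Finset.card_image_of_injective (pr κ c τ) hκ, ← Finset.card_union_of_disjoint]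
  · apply Finset.card_le_card
    intro v hv
    rcases Finset.mem_union.mp hv with h | h
    · obtain ⟨x, hx, rfl⟩ := Finset.mem_image.mp h
      exact (Finset.mem_filter.mp hx).2
    · obtain ⟨x, hx, rfl⟩ := Finset.mem_image.mp h
      exact (Finset.mem_filter.mp hx).2
  · rw [Finset.disjoint_left]
    intro v h1 h2
    obtain ⟨x, -, rfl⟩ := Finset.mem_image.mp h1
    obtain ⟨y, -, h3⟩ := Finset.mem_image.mp h2
    exact hd x y h3.symm

omit [DecidableEq W] in
lemma T_pr {X : Type} [Fintype X] {c : ℕ → Finset V} (ι : W → V) (s t : ℕ) (f : X → W) :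
    T (pr ι c) s t f = T c s t (fun x => ι (f x)) := by
  ext x
  rw [mem_T, mem_T]
  unfold Tch pr
  simp

end proj

end Pool.Agent.W953.PT
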