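import Mathlib
import Pool.Agent.W953.PT.Walk

/-!
# Butterflies
-/

set_option autoImplicit false

namespace Pool.Agent.W953.PT

/-- the vertices of the butterfly -/
abbrev BV (j : ℕ) : Type := Fin (j + 1) × (Fin j → Bool)

variable {j : ℕ}

/-- the vertex of the path from `a` to `b` in layer `l` -/
def node (a b : Fin j → Bool) (l : Fin (j + 1)) : BV j :=
  (l, fun i => if i.val < l.val then b i else a i)

/-- change one bit -/
def flp (r : Fin j → Bool) (l : Fin j) : Fin j → Bool := Function.update r l (!(r l))

lemma node_step (a b : Fin j → Bool) (l : Fin j) :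
    node a b l.castSucc = (l.castSucc, (node a b l.succ).2) ∨
      node a b l.castSucc = (l.castSucc, flp (node a b l.succ).2 l) := by
  by_cases h : a l = b l
  · left
    unfold node
    refine Prod.ext rfl ?_
    funext i
    simp only [Fin.val_castSucc, Fin.val_succ]
    by_cases h1 : i.val < l.val
    · rw [if_pos h1, if_pos (by omega)]
    · by_cases h2 : i = l
      · subst h2
        rw [if_neg h1, if_pos (by omega), h]
      · have : i.val ≠ l.val := fun e => h2 (Fin.ext e)
        rw [if_neg h1, if_neg (by omega)]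
  · right
    unfold node flp
    refine Prod.ext rfl ?_
    funext i
    simp only [Fin.val_castSucc, Fin.val_succ]
    by_cases h2 : i = l
    · subst h2
      rw [Function.update_self, if_neg (by omega), if_pos (by omega)]
      cases ha : a i <;> cases hb : b i <;> simp_all
    · have h3 : i.val ≠ l.val := fun e => h2 (Fin.ext e)
      rw [Function.update_of_ne h2]
      by_cases h1 : i.val < l.val
      · rw [if_pos h1, if_pos (by omega)]
      · rw [if_neg h1, if_neg (by omega)]

/-- the pairs of ends of the paths through a vertex -/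
lemma through_card (z : BV j) :
    (Finset.univ.filter (fun p : (Fin j → Bool) × (Fin j → Bool) =>
      ∃ l, node p.1 p.2 l = z)).card ≤ 2 ^ j := by
  classical
  have h1 : Fintype.card (Fin j → Bool) = 2 ^ j := by simp
  rw [← h1, ← Finset.card_univ]
  refine Finset.card_le_card_of_injOn
    (fun p => fun i => if i.val < z.1.val then p.1 i else p.2 i)
    (fun p _ => Finset.mem_coe.mpr (Finset.mem_univ _)) ?_
  intro p hp q hq hpq
  obtain ⟨l, hl⟩ := (Finset.mem_filter.mp (Finset.mem_coe.mp hp)).2
  obtain ⟨l', hl'⟩ := (Finset.mem_filter.mp (Finset.mem_coe.mp hq)).2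
  have e1 : l = z.1 := congrArg Prod.fst hl
  have e2 : l' = z.1 := congrArg Prod.fst hl'
  subst e1
  subst e2
  have f1 : ∀ i : Fin j, (if i.val < z.1.val then p.2 i else p.1 i) = z.2 i := fun i =>
    congrFun (congrArg Prod.snd hl) i
  have f2 : ∀ i : Fin j, (if i.val < z.1.val then q.2 i else q.1 i) = z.2 i := fun i =>
    congrFun (congrArg Prod.snd hl') i
  have f3 : ∀ i : Fin j, (if i.val < z.1.val then p.1 i else p.2 i) =
      if i.val < z.1.val then q.1 i else q.2 i := fun i => congrFun hpq i
  refine Prod.ext ?_ ?_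
  · funext i
    have g1 := f1 i
    have g2 := f2 i
    have g3 := f3 i
    by_cases h : i.val < z.1.val
    · rw [if_pos h, if_pos h] at g3
      exact g3
    · rw [if_neg h] at g1 g2
      rw [g1, g2]
  · funext i
    have g1 := f1 i
    have g2 := f2 i
    have g3 := f3 i
    by_cases h : i.val < z.1.val
    · rw [if_pos h] at g1 g2
      rw [g1, g2]
    · rw [if_neg h, if_neg h] at g3
      exact g3

/-- blocking -/
lemma block (A B : Finset (Fin j → Bool)) (Z : Finset (BV j))
    (h : ∀ a ∈ A, ∀ b ∈ B, ∃ l, node a b l ∈ Z) : A.card * B.card ≤ Z.card * 2 ^ j := by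
  classical
  rw [← Finset.card_product]
  have h1 : A ×ˢ B ⊆ Z.biUnion (fun z => Finset.univ.filter
      (fun p : (Fin j → Bool) × (Fin j → Bool) => ∃ l, node p.1 p.2 l = z)) := by
    intro p hp
    obtain ⟨h2, h3⟩ := Finset.mem_product.mp hp
    obtain ⟨l, hl⟩ := h p.1 h2 p.2 h3
    exact Finset.mem_biUnion.mpr ⟨_, hl, Finset.mem_filter.mpr ⟨Finset.mem_univ _, l, rfl⟩⟩
  exact (Finset.card_le_card h1).trans
    (Finset.card_biUnion_le_card_mul _ _ _ (fun z _ => through_card z))

section graph

variable {V : Type} [DecidableEq V] {P : V → Finset V} {c : ℕ → Finset V}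

/-- the map is a butterfly in the graph -/
structure IsBf (P : V → Finset V) (bf : BV j → V) : Prop where
  inj : Function.Injective bf
  same : ∀ (l : Fin j) (r : Fin j → Bool), bf (l.castSucc, r) ∈ P (bf (l.succ, r))
  cross : ∀ (l : Fin j) (r : Fin j → Bool), bf (l.castSucc, flp r l) ∈ P (bf (l.succ, r))

lemma IsBf.path {bf : BV j → V} (hb : IsBf P bf) (hc : Peb P c) (s t : ℕ) (a b : Fin j → Bool)
    (hout : Tch c s t (bf (Fin.last j, b))) (hin : ¬ Tch c s t (bf (0, a))) :
    ∃ l, bf (node a b l) ∈ c s := by
  by_contra hcon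
  push Not at hcon
  apply hin
  have h0 : node a b 0 = (0, a) := by
    unfold node
    refine Prod.ext rfl ?_
    funext i
    simp
  have hl : node a b (Fin.last j) = (Fin.last j, b) := by
    unfold node
    refine Prod.ext rfl ?_
    funext i
    simp
  rw [← h0]
  rw [← hl] at hout
  refine Fin.reverseInduction (motive := fun l => Tch c s t (bf (node a b l))) hout
    (fun l ih => ?_) 0
  apply hc.back ih (hcon _)
  rcases node_step a b l with h | h
  · rw [h]
    exact hb.same l _
  · rw [h]
    exact hb.cross l _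

variable {X : Type} [Fintype X] [DecidableEq X]

/-- Touched outputs and untouched inputs. -/
theorem IsBf.count {bf : BV j → V} (hb : IsBf P bf) (hc : Peb P c) (e : X ≃ (Fin j → Bool))
    (s t : ℕ) :
    (2 ^ j - (T c s t (fun x => bf (0, e x))).card) *
      (T c s t (fun x => bf (Fin.last j, e x))).card ≤ (c s).card * 2 ^ j := by
  classical
  have hX : Fintype.card X = 2 ^ j := by rw [Fintype.card_congr e]; simp
  have h1 := block ((T c s t (fun x => bf (0, e x)))ᶜ.map e.toEmbedding)
    ((T c s t (fun x => bf (Fin.last j, e x))).map e.toEmbedding)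
    (Finset.univ.filter (fun z => bf z ∈ c s)) (by
      intro a ha b hb'
      obtain ⟨x, hx, rfl⟩ := Finset.mem_map.mp ha
      obtain ⟨y, hy, rfl⟩ := Finset.mem_map.mp hb'
      rw [Finset.mem_compl, mem_T] at hx
      rw [mem_T] at hy
      obtain ⟨l, hl⟩ := hb.path hc s t (e x) (e y) hy hx
      exact ⟨l, Finset.mem_filter.mpr ⟨Finset.mem_univ _, hl⟩⟩)
  rw [Finset.card_map, Finset.card_map, Finset.card_compl, hX] at h1
  refine h1.trans (Nat.mul_le_mul_right _ ?_)
  refine Finset.card_le_card_of_injOn bf (fun x hx => ?_) (fun x _ y _ h => hb.inj h)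
  exact (Finset.mem_filter.mp (Finset.mem_coe.mp hx)).2

end graph

end Pool.Agent.W953.PT
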