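import Mathlib
import Pool.Agent.W953.PT.Bfly

/-!
# The recursive pebbling bound of Paul, Tarjan and Celoni
-/

set_option autoImplicit false

namespace Pool.Agent.W953.PT

/-- the claim of the recursion -/
def Claim {V X : Type} [DecidableEq V] [Fintype X] (P : V → Finset V) (src snk : X → V)
    (M : ℕ) : Prop :=
  ∀ c, Peb P c → ∀ s t, s ≤ t → (c s).card ≤ 3 * M → 30 * M ≤ (T c s t snk).card →
    ∃ s' t', s ≤ s' ∧ s' ≤ t' ∧ t' ≤ t ∧ (∀ τ, s' ≤ τ → τ ≤ t' → M ≤ (c τ).card) ∧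
      33 * M ≤ (T c s' t' src).card

lemma bf_num {M N i o a p q r : ℕ} (hM : 0 < M) (h : (N - i) * o ≤ a * N) (hN : N = 128 * M)
    (ha : a ≤ p * M) (ho : q * M ≤ o) (hr : r ≤ 128) (hpq : p * 128 < r * q) :
    (128 - r) * M ≤ i := by
  by_contra hcon
  push Not at hcon
  have h1 : r * M ≤ N - i := by
    have : (128 - r) * M + r * M = 128 * M := by
      rw [← Nat.add_mul]
      congr 1
      omega
    omega
  have h2 : (r * M) * (q * M) ≤ (p * M) * (128 * M) := by
    calc (r * M) * (q * M) ≤ (N - i) * o := Nat.mul_le_mul h1 ho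
      _ ≤ a * N := h
      _ ≤ (p * M) * (128 * M) := by rw [hN]; exact Nat.mul_le_mul_right _ ha
  have h3 : (r * q) * (M * M) ≤ (p * 128) * (M * M) := by
    calc (r * q) * (M * M) = (r * M) * (q * M) := by ring
      _ ≤ (p * M) * (128 * M) := h2
      _ = (p * 128) * (M * M) := by ring
  have h4 := Nat.le_of_mul_le_mul_right h3 (Nat.mul_pos hM hM)
  omega

section step

variable {V W X : Type} [DecidableEq V] [DecidableEq W] [Fintype W] [Fintype X] [DecidableEq X]
  {j M : ℕ}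

/-- The recursion. -/
theorem claim_step (hM : 0 < M) (hj : 2 ^ j = 128 * M)
    {P : V → Finset V} {Q : W → Finset W} {src snk : X → W} (hsrc : Function.Injective src)
    (hsnk : Function.Injective snk) (hss : ∀ x, src x ∈ Q (snk x)) (hQ : Claim Q src snk M)
    (e : X ≃ (Fin j → Bool)) {g1 g2 : W → V} (hg1 : Function.Injective g1)
    (hg2 : Function.Injective g2) (hdisj : ∀ x y, g1 x ≠ g2 y)
    (hQ1 : ∀ w, ∀ u ∈ Q w, g1 u ∈ P (g1 w)) (hQ2 : ∀ w, ∀ u ∈ Q w, g2 u ∈ P (g2 w))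
    {b1 b2 : BV j → V} (hb1 : IsBf P b1) (hb2 : IsBf P b2) {S S' : X × Bool → V}
    (hS : Function.Injective S) (hS' : Function.Injective S')
    (e1 : ∀ x b, S (x, b) ∈ P (b1 (0, e x))) (e2 : ∀ x, b1 (Fin.last j, e x) ∈ P (g1 (src x)))
    (e3 : ∀ x, g1 (snk x) ∈ P (g2 (src x))) (e4 : ∀ x, g2 (snk x) ∈ P (b2 (0, e x)))
    (e5 : ∀ x : X × Bool, b2 (Fin.last j, e x.1) ∈ P (S' x)) :
    Claim P S S' (2 * M) := by
  intro c hc s t hst hcs htt
  -- the stages
  have st1 : ∀ a b, (T c a b S').card ≤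
      2 * (T c a b (fun x => b2 (Fin.last j, e x))).card + (c a).card := fun a b =>
    hc.stage_two (f := fun x => b2 (Fin.last j, e x)) hS' e5 a b
  have st2 : ∀ a b, (2 ^ j - (T c a b (fun x => b2 (0, e x))).card) *
      (T c a b (fun x => b2 (Fin.last j, e x))).card ≤ (c a).card * 2 ^ j := fun a b =>
    hb2.count hc e a b
  have i20 : Function.Injective (fun x => b2 (0, e x)) := fun x y h =>
    e.injective (congrArg Prod.snd (hb2.inj h))
  have i10 : Function.Injective (fun x => b1 (0, e x)) := fun x y h =>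
    e.injective (congrArg Prod.snd (hb1.inj h))
  have st3 : ∀ a b, (T c a b (fun x => b2 (0, e x))).card ≤
      (T c a b (fun x => g2 (snk x))).card + (c a).card := fun a b => hc.stage i20 e4 a b
  have st4 : ∀ a b, (T c a b (fun x => g2 (snk x))).card ≤
      (T c a b (fun x => g2 (src x))).card + (c a).card := fun a b =>
    hc.stage (f := fun x => g2 (src x)) (hg2.comp hsnk) (fun x => hQ2 _ _ (hss x)) a b
  have st5 : ∀ a b, (T c a b (fun x => g2 (src x))).card ≤
      (T c a b (fun x => g1 (snk x))).card + (c a).card := fun a b =>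
    hc.stage (f := fun x => g1 (snk x)) (hg2.comp hsrc) e3 a b
  have st6 : ∀ a b, (T c a b (fun x => g1 (snk x))).card ≤
      (T c a b (fun x => g1 (src x))).card + (c a).card := fun a b =>
    hc.stage (f := fun x => g1 (src x)) (hg1.comp hsnk) (fun x => hQ1 _ _ (hss x)) a b
  have st7 : ∀ a b, (T c a b (fun x => g1 (src x))).card ≤
      (T c a b (fun x => b1 (Fin.last j, e x))).card + (c a).card := fun a b =>
    hc.stage (f := fun x => b1 (Fin.last j, e x)) (hg1.comp hsrc) e2 a b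
  have st8 : ∀ a b, (2 ^ j - (T c a b (fun x => b1 (0, e x))).card) *
      (T c a b (fun x => b1 (Fin.last j, e x))).card ≤ (c a).card * 2 ^ j := fun a b =>
    hb1.count hc e a b
  have st9 : ∀ a b, 2 * (T c a b (fun x => b1 (0, e x))).card ≤
      (T c a b S).card + 2 * (c a).card := fun a b =>
    hc.stage_half (f := S) i10 e1 a b
  -- many sinks of the second copy
  have n1 : 27 * M ≤ (T c s t (fun x => b2 (Fin.last j, e x))).card := by
    have := st1 s t; omega
  have n2 : (128 - 29) * M ≤ (T c s t (fun x => b2 (0, e x))).card :=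
    bf_num hM (st2 s t) hj (p := 6) (by omega) n1 (by norm_num) (by norm_num)
  have n3 : 93 * M ≤ (T c s t (fun x => g2 (snk x))).card := by
    have := st3 s t; omega
  -- a long interval without low times
  have caseA : ∀ b, s ≤ b → b ≤ t → (∀ τ, s ≤ τ → τ ≤ b → ¬ (c τ).card ≤ 3 * M) →
      38 * M ≤ (T c s b (fun x => g2 (snk x))).card →
      ∃ s' t', s ≤ s' ∧ s' ≤ t' ∧ t' ≤ t ∧ (∀ τ, s' ≤ τ → τ ≤ t' → 2 * M ≤ (c τ).card) ∧
      33 * (2 * M) ≤ (T c s' t' S).card := by
    intro b hb1' hb2' hlow hk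
    refine ⟨s, b, le_rfl, hb1', hb2', fun τ h1 h2 => by have := hlow τ h1 h2; omega, ?_⟩
    have m1 := st4 s b
    have m2 := st5 s b
    have m3 := st6 s b
    have m4 := st7 s b
    have m5 : (128 - 55) * M ≤ (T c s b (fun x => b1 (0, e x))).card :=
      bf_num hM (st8 s b) hj (p := 6) (q := 14) (by omega) (by omega) (by norm_num) (by norm_num)
    have m6 := st9 s b
    omega
  by_cases hex : ∃ τ, s ≤ τ ∧ τ ≤ t ∧ (c τ).card ≤ 3 * M
  swap
  · exact caseA t hst le_rfl (fun τ h1 h2 h3 => hex ⟨τ, h1, h2, h3⟩) (by omega)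
  obtain ⟨τ₀, hτ1, hτ2, hτ3, hτ4⟩ := first_time (fun τ => (c τ).card ≤ 3 * M) hex
  have hsplit : (∃ m, s ≤ m ∧ m + 1 = τ₀ ∧ 38 * M ≤ (T c s m (fun x => g2 (snk x))).card) ∨
      30 * M ≤ (T c τ₀ t (fun x => g2 (snk x))).card := by
    rcases Nat.eq_or_lt_of_le hτ1 with h | h
    · right
      rw [← h]
      omega
    · obtain ⟨m, rfl⟩ : ∃ m, m + 1 = τ₀ := ⟨τ₀ - 1, by omega⟩
      by_cases h38 : 38 * M ≤ (T c s m (fun x => g2 (snk x))).card
      · exact Or.inl ⟨m, by omega, rfl, h38⟩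
      · right
        have := T_split_card (c := c) s m t (fun x => g2 (snk x))
        omega
  rcases hsplit with ⟨m, hm1, hm2, hm3⟩ | hk2
  · exact caseA m hm1 (by omega) (fun τ h1 h2 => hτ4 τ h1 (by omega)) hm3
  -- the second copy
  obtain ⟨u, v, hu1, huv, hv1, hG2, hr2⟩ := hQ (pr g2 c) (pr_peb hc hg2 hQ2) τ₀ t hτ2
    ((pr_card hg2 τ₀).trans hτ3) (by rw [T_pr]; exact hk2)
  rw [T_pr] at hr2
  obtain ⟨w2, hw1, hw2, hw3, hw4⟩ := last_time (fun τ => (c τ).card ≤ 3 * M) hu1 hτ3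
  have hk1 : 30 * M ≤ (T c w2 v (fun x => g1 (snk x))).card := by
    have h1 := T_card_mono (c := c) (fun x => g2 (src x)) hw2 (le_refl v)
    have h2 := st5 w2 v
    omega
  -- the first copy
  obtain ⟨u', v', hu'1, huv', hv'1, hG1, hr1⟩ := hQ (pr g1 c) (pr_peb hc hg1 hQ1) w2 v
    (by omega) ((pr_card hg1 w2).trans hw3) (by rw [T_pr]; exact hk1)
  rw [T_pr] at hr1
  obtain ⟨w, hx1, hx2, hx3, hx4⟩ := last_time (fun τ => (c τ).card ≤ 3 * M) hu'1 hw3
  have hi1 : (128 - 13) * M ≤ (T c w v' (fun x => b1 (0, e x))).card := by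
    have h1 := T_card_mono (c := c) (fun x => g1 (src x)) hx2 (le_refl v')
    have h2 := st7 w v'
    exact bf_num hM (st8 w v') hj (p := 3) (q := 30) hx3 (by omega) (by norm_num) (by norm_num)
  have hS1 := st9 w v'
  have hS2 := T_split_card (c := c) w w v' S
  have hS3 := T_single (c := c) hS w
  have hwv : w + 1 ≤ v' := by
    by_contra hcon
    have : w = v' := by omega
    subst this
    omega
  refine ⟨w + 1, v', by omega, hwv, by omega, fun τ h1 h2 => ?_, by omega⟩
  by_cases hτu : τ ≤ u'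
  · have := hx4 τ (by omega) hτu
    omega
  · have h3 := hG1 τ (by omega) h2
    by_cases hτu2 : u ≤ τ
    · have h4 := hG2 τ hτu2 (by omega)
      have h5 := pr_card_add (c := c) hg1 hg2 hdisj τ
      omega
    · have := hw4 τ (by omega) (by omega)
      omega

end step

section base

variable {V X : Type} [DecidableEq V] [Fintype X] [DecidableEq X]

/-- The base case: one butterfly. -/
theorem claim_base {P : V → Finset V} (e : X ≃ (Fin 7 → Bool)) {b : BV 7 → V} (hb : IsBf P b)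
    {S S' : X → V} (hS : Function.Injective S) (hS' : Function.Injective S')
    (e1 : ∀ x, S x ∈ P (b (0, e x))) (e2 : ∀ x, b (Fin.last 7, e x) ∈ P (S' x)) :
    Claim P S S' 1 := by
  intro c hc s t hst hcs htt
  have i0 : Function.Injective (fun x => b (0, e x)) := fun x y h =>
    e.injective (congrArg Prod.snd (hb.inj h))
  have st1 : ∀ a d, (T c a d S').card ≤
      (T c a d (fun x => b (Fin.last 7, e x))).card + (c a).card := fun a d =>
    hc.stage (f := fun x => b (Fin.last 7, e x)) hS' e2 a d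
  have st2 : ∀ a d, (2 ^ 7 - (T c a d (fun x => b (0, e x))).card) *
      (T c a d (fun x => b (Fin.last 7, e x))).card ≤ (c a).card * 2 ^ 7 := fun a d =>
    hb.count hc e a d
  have st3 : ∀ a d, (T c a d (fun x => b (0, e x))).card ≤
      (T c a d S).card + (c a).card := fun a d => hc.stage i0 e1 a d
  have caseA : ∀ d, s ≤ d → d ≤ t → (∀ τ, s ≤ τ → τ ≤ d → ¬ (c τ).card = 0) →
      30 ≤ (T c s d S').card →
      ∃ s' t', s ≤ s' ∧ s' ≤ t' ∧ t' ≤ t ∧ (∀ τ, s' ≤ τ → τ ≤ t' → 1 ≤ (c τ).card) ∧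
      33 * 1 ≤ (T c s' t' S).card := by
    intro d hd1 hd2 hlow hk
    refine ⟨s, d, le_rfl, hd1, hd2, fun τ h1 h2 => by have := hlow τ h1 h2; omega, ?_⟩
    have m1 := st1 s d
    have m2 : (128 - 15) * 1 ≤ (T c s d (fun x => b (0, e x))).card :=
      bf_num (M := 1) one_pos (st2 s d) (by norm_num) (p := 3) (q := 27) (by omega) (by omega)
        (by norm_num) (by norm_num)
    have m3 := st3 s d
    omega
  by_cases hex : ∃ τ, s ≤ τ ∧ τ ≤ t ∧ (c τ).card = 0
  swap
  · exact caseA t hst le_rfl (fun τ h1 h2 h3 => hex ⟨τ, h1, h2, h3⟩) (by omega)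
  obtain ⟨τ₀, hτ1, hτ2, hτ3, hτ4⟩ := first_time (fun τ => (c τ).card = 0) hex
  have hsplit : (∃ m, s ≤ m ∧ m + 1 = τ₀ ∧ 30 ≤ (T c s m S').card) ∨
      1 ≤ (T c τ₀ t S').card := by
    rcases Nat.eq_or_lt_of_le hτ1 with h | h
    · right
      rw [← h]
      omega
    · obtain ⟨m, rfl⟩ : ∃ m, m + 1 = τ₀ := ⟨τ₀ - 1, by omega⟩
      by_cases h38 : 30 ≤ (T c s m S').card
      · exact Or.inl ⟨m, by omega, rfl, h38⟩
      · right
        have := T_split_card (c := c) s m t S'
        omega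
  rcases hsplit with ⟨m, hm1, hm2, hm3⟩ | hk2
  · exact caseA m hm1 (by omega) (fun τ h1 h2 => hτ4 τ h1 (by omega)) hm3
  obtain ⟨x, hx⟩ := Finset.card_pos.mp (by omega : 0 < (T c τ₀ t S').card)
  obtain ⟨τ, hτa, hτb, hτc⟩ := mem_T.mp hx
  obtain ⟨w, hw1, hw2, hw3, hw4⟩ := last_time (fun τ => (c τ).card = 0) hτa hτ3
  have hwτ : w < τ := by
    rcases Nat.eq_or_lt_of_le hw2 with h | h
    · subst h
      rw [Finset.card_eq_zero] at hw3
      rw [hw3] at hτc
      exact absurd hτc (Finset.notMem_empty _)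
    · exact h
  have m0 : 1 ≤ (T c w τ S').card := Finset.card_pos.mpr ⟨x, mem_T.mpr ⟨τ, hw2, le_rfl, hτc⟩⟩
  have m1 := st1 w τ
  have m2 := st2 w τ
  have m3 := st3 w τ
  have m4 := T_split_card (c := c) w w τ S
  have m5 := T_single (c := c) hS w
  rw [hw3] at m1 m2 m3 m5
  rw [Nat.zero_mul, Nat.le_zero, Nat.mul_eq_zero] at m2
  refine ⟨w + 1, τ, by omega, hwτ, by omega, fun τ' h1 h2 => ?_, ?_⟩
  · have := hw4 τ' (by omega) h2
    omega
  · have : (2 : ℕ) ^ 7 = 128 := by norm_num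
    omega

end base

end Pool.Agent.W953.PT
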