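import Mathlib
import Pool.Agent.W953.PT.Rec

/-!
# The graphs
-/

set_option autoImplicit false

namespace Pool.Agent.W953.PT

/-- predecessors in a butterfly -/
def bfP {V : Type} [DecidableEq V] {j : ℕ} (bf : BV j → V) (inP : (Fin j → Bool) → Finset V)
    (z : BV j) : Finset V :=
  Fin.cases (motive := fun _ => Finset V) (inP z.2)
    (fun l => {bf (l.castSucc, z.2), bf (l.castSucc, flp z.2 l)}) z.1

section bfP

variable {V : Type} [DecidableEq V] {j : ℕ} (bf : BV j → V) (inP : (Fin j → Bool) → Finset V)

lemma bfP_zero (r : Fin j → Bool) : bfP bf inP (0, r) = inP r := rfl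

lemma bfP_succ (l : Fin j) (r : Fin j → Bool) :
    bfP bf inP (l.succ, r) = {bf (l.castSucc, r), bf (l.castSucc, flp r l)} := rfl

lemma bfP_card (h : ∀ r, (inP r).card ≤ 2) (z : BV j) : (bfP bf inP z).card ≤ 2 := by
  obtain ⟨l, r⟩ := z
  refine Fin.cases ?_ (fun l => ?_) l
  · rw [bfP_zero]; exact h r
  · rw [bfP_succ]; exact Finset.card_le_two

lemma mem_bfP {v : V} {z : BV j} (h : v ∈ bfP bf inP z) :
    (z.1 = 0 ∧ v ∈ inP z.2) ∨ ∃ z' : BV j, v = bf z' ∧ z'.1.val + 1 = z.1.val := by
  obtain ⟨l, r⟩ := z
  revert h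
  refine Fin.cases ?_ (fun l => ?_) l
  · intro h
    rw [bfP_zero] at h
    exact Or.inl ⟨rfl, h⟩
  · intro h
    rw [bfP_succ, Finset.mem_insert, Finset.mem_singleton] at h
    right
    rcases h with rfl | rfl
    · exact ⟨_, rfl, by simp⟩
    · exact ⟨_, rfl, by simp⟩

end bfP

/-! ### the base -/

/-- the vertices of the base graph -/
inductive V0 : Type
  | s (x : Fin 7 → Bool)
  | b (z : BV 7)
  | t (x : Fin 7 → Bool)

namespace V0

noncomputable instance : DecidableEq V0 := Classical.decEq _

/-- the vertices as a sum -/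
def equiv : V0 ≃ (Fin 7 → Bool) ⊕ (BV 7 ⊕ (Fin 7 → Bool)) where
  toFun
    | s x => .inl x
    | b z => .inr (.inl z)
    | t x => .inr (.inr x)
  invFun
    | .inl x => s x
    | .inr (.inl z) => b z
    | .inr (.inr x) => t x
  left_inv v := by cases v <;> rfl
  right_inv v := by rcases v with x | z | x <;> rfl

noncomputable instance : Fintype V0 := Fintype.ofEquiv _ equiv.symm

lemma card : Fintype.card V0 = 1280 := by
  rw [Fintype.card_congr equiv]
  simp [BV]

/-- predecessors -/
noncomputable def P : V0 → Finset V0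
  | s _ => ∅
  | b z => bfP b (fun r => {s r}) z
  | t x => {b (Fin.last 7, x), s x}

/-- levels -/
def lvl : V0 → ℕ
  | s _ => 0
  | b z => 1 + z.1.val
  | t _ => 9

end V0

/-! ### the recursion -/

/-- the vertices of the next graph -/
inductive NV (X W : Type) (j : ℕ) : Type
  | s (x : X × Bool)
  | a (z : BV j)
  | f (w : W)
  | g (w : W)
  | b (z : BV j)
  | t (x : X × Bool)

namespace NV

variable {X W : Type} {j : ℕ}

noncomputable instance : DecidableEq (NV X W j) := Classical.decEq _

/-- the vertices as a sum -/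
def equiv : NV X W j ≃
    (X × Bool) ⊕ (BV j ⊕ (W ⊕ (W ⊕ (BV j ⊕ (X × Bool))))) where
  toFun
    | s x => .inl x
    | a z => .inr (.inl z)
    | f w => .inr (.inr (.inl w))
    | g w => .inr (.inr (.inr (.inl w)))
    | b z => .inr (.inr (.inr (.inr (.inl z))))
    | t x => .inr (.inr (.inr (.inr (.inr x))))
  invFun
    | .inl x => s x
    | .inr (.inl z) => a z
    | .inr (.inr (.inl w)) => f w
    | .inr (.inr (.inr (.inl w))) => g w
    | .inr (.inr (.inr (.inr (.inl z)))) => b z
    | .inr (.inr (.inr (.inr (.inr x)))) => t x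
  left_inv v := by cases v <;> rfl
  right_inv v := by rcases v with x | x | x | x | x | x <;> rfl

variable [Fintype X] [Fintype W]

noncomputable instance : Fintype (NV X W j) := Fintype.ofEquiv _ equiv.symm

lemma card : Fintype.card (NV X W j) = 2 * Fintype.card W + 2 * ((j + 1) * 2 ^ j) +
    4 * Fintype.card X := by
  rw [Fintype.card_congr equiv]
  simp only [Fintype.card_sum, Fintype.card_prod, Fintype.card_bool, Fintype.card_fin,
    Fintype.card_fun]
  ring

variable (e : X ≃ (Fin j → Bool)) (Q : W → Finset W) (src snk : X → W)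

open Classical in
/-- predecessors -/
noncomputable def P : NV X W j → Finset (NV X W j)
  | s _ => ∅
  | a z => bfP a (fun r => {s (e.symm r, false), s (e.symm r, true)}) z
  | f w => if h : ∃ x, src x = w then {a (Fin.last j, e h.choose)} else (Q w).image f
  | g w => if h : ∃ x, src x = w then {f (snk h.choose)} else (Q w).image g
  | b z => bfP b (fun r => {g (snk (e.symm r))}) z
  | t x => {b (Fin.last j, e x.1), s x}

variable {e Q src snk}

open Classical in
lemma P_f_src (hsrc : Function.Injective src) (x : X) :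
    P e Q src snk (f (src x)) = {a (Fin.last j, e x)} := by
  have h : ∃ x', src x' = src x := ⟨x, rfl⟩
  show (if h : ∃ x', src x' = src x then _ else _) = _
  rw [dif_pos h, hsrc h.choose_spec]

open Classical in
lemma P_g_src (hsrc : Function.Injective src) (x : X) :
    P e Q src snk (g (src x)) = {f (snk x)} := by
  have h : ∃ x', src x' = src x := ⟨x, rfl⟩
  show (if h : ∃ x', src x' = src x then _ else _) = _
  rw [dif_pos h, hsrc h.choose_spec]

open Classical in
lemma mem_P_f {w : W} (hw : ¬ ∃ x, src x = w) : P e Q src snk (f w) = (Q w).image f := by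
  show (if h : ∃ x', src x' = w then _ else _) = _
  rw [dif_neg hw]

open Classical in
lemma mem_P_g {w : W} (hw : ¬ ∃ x, src x = w) : P e Q src snk (g w) = (Q w).image g := by
  show (if h : ∃ x', src x' = w then _ else _) = _
  rw [dif_neg hw]

lemma P_card (hsrc : Function.Injective src) (hQ : ∀ w, (Q w).card ≤ 2) (v : NV X W j) :
    (P e Q src snk v).card ≤ 2 := by
  classical
  cases v with
  | s x => simp [P]
  | a z => exact bfP_card _ _ (fun r => Finset.card_le_two) z
  | f w =>
    by_cases h : ∃ x, src x = w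
    · obtain ⟨x, rfl⟩ := h
      rw [P_f_src hsrc]
      simp
    · rw [mem_P_f h]
      exact Finset.card_image_le.trans (hQ w)
  | g w =>
    by_cases h : ∃ x, src x = w
    · obtain ⟨x, rfl⟩ := h
      rw [P_g_src hsrc]
      simp
    · rw [mem_P_g h]
      exact Finset.card_image_le.trans (hQ w)
  | b z => exact bfP_card _ _ (fun r => by simp) z
  | t x => exact Finset.card_le_two

/-- levels -/
def lvl (L : ℕ) (l : W → ℕ) : NV X W j → ℕ
  | s _ => 0
  | a z => 1 + z.1.val
  | f w => j + 2 + l w
  | g w => j + 3 + L + l w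
  | b z => j + 4 + 2 * L + z.1.val
  | t _ => 2 * j + 5 + 2 * L

lemma lvl_lt (hsrc : Function.Injective src) {l : W → ℕ} (hl : ∀ w, ∀ u ∈ Q w, l u < l w)
    {L : ℕ} (hL : ∀ w, l w ≤ L) (v u : NV X W j) (hu : u ∈ P e Q src snk v) :
    lvl L l u < lvl L l v := by
  classical
  cases v with
  | s x => exact absurd hu (Finset.notMem_empty _)
  | a z =>
    rcases mem_bfP _ _ hu with ⟨h1, h2⟩ | ⟨z', rfl, h2⟩
    · rw [Finset.mem_insert, Finset.mem_singleton] at h2
      rcases h2 with rfl | rfl <;> simp only [lvl] <;> omega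
    · simp only [lvl]; omega
  | f w =>
    by_cases h : ∃ x, src x = w
    · obtain ⟨x, rfl⟩ := h
      rw [P_f_src hsrc, Finset.mem_singleton] at hu
      subst hu
      simp only [lvl, Fin.val_last]
      omega
    · rw [mem_P_f h] at hu
      obtain ⟨u', hu', rfl⟩ := Finset.mem_image.mp hu
      have := hl w u' hu'
      simp only [lvl]
      omega
  | g w =>
    by_cases h : ∃ x, src x = w
    · obtain ⟨x, rfl⟩ := h
      rw [P_g_src hsrc, Finset.mem_singleton] at hu
      subst hu
      have := hL (snk x)
      simp only [lvl]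
      omega
    · rw [mem_P_g h] at hu
      obtain ⟨u', hu', rfl⟩ := Finset.mem_image.mp hu
      have := hl w u' hu'
      simp only [lvl]
      omega
  | b z =>
    rcases mem_bfP _ _ hu with ⟨h1, h2⟩ | ⟨z', rfl, h2⟩
    · rw [Finset.mem_singleton] at h2
      subst h2
      have := hL (snk (e.symm z.2))
      simp only [lvl]
      omega
    · simp only [lvl]; omega
  | t x =>
    have hu' : u ∈ ({b (Fin.last j, e x.1), s x} : Finset (NV X W j)) := hu
    rw [Finset.mem_insert, Finset.mem_singleton] at hu'
    rcases hu' with rfl | rfl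
    · simp only [lvl, Fin.val_last]
      omega
    · simp only [lvl]; omega

end NV

/-- The family of graphs. -/
theorem exists_graph (k : ℕ) : ∃ (V X : Type) (_ : DecidableEq V) (_ : Fintype V)
    (_ : DecidableEq X) (_ : Fintype X) (P : V → Finset V) (src snk : X → V) (lvl : V → ℕ),
    Fintype.card X = 2 ^ (k + 7) ∧ Function.Injective src ∧ Function.Injective snk ∧
    (∀ x, src x ∈ P (snk x)) ∧ (∀ x, P (src x) = ∅) ∧ (∀ v, (P v).card ≤ 2) ∧
    (∀ v, ∀ u ∈ P v, lvl u < lvl v) ∧ Claim P src snk (2 ^ k) ∧
    Fintype.card V ≤ 128 * 2 ^ k * (k + 5) ^ 2 := by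
  classical
  induction k with
  | zero =>
    refine ⟨V0, Fin 7 → Bool, inferInstance, inferInstance, inferInstance, inferInstance, V0.P,
      V0.s, V0.t, V0.lvl, by simp, fun x y h => V0.s.inj h, fun x y h => V0.t.inj h, ?_, ?_, ?_,
      ?_, ?_, ?_⟩
    · intro x
      show V0.s x ∈ ({V0.b (Fin.last 7, x), V0.s x} : Finset V0)
      simp
    · intro x
      rfl
    · intro v
      cases v with
      | s x => simp [V0.P]
      | b z => exact bfP_card _ _ (fun r => by simp) z
      | t x => exact Finset.card_le_two
    · intro v u hu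
      cases v with
      | s x => exact absurd hu (Finset.notMem_empty _)
      | b z =>
        rcases mem_bfP _ _ hu with ⟨h1, h2⟩ | ⟨z', rfl, h2⟩
        · rw [Finset.mem_singleton] at h2
          subst h2
          simp only [V0.lvl]
          omega
        · simp only [V0.lvl]; omega
      | t x =>
        have hu' : u ∈ ({V0.b (Fin.last 7, x), V0.s x} : Finset V0) := hu
        rw [Finset.mem_insert, Finset.mem_singleton] at hu'
        rcases hu' with rfl | rfl
        · simp only [V0.lvl, Fin.val_last]
          omega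
        · simp only [V0.lvl]; omega
    · refine claim_base (P := V0.P) (Equiv.refl _) (b := V0.b) ⟨fun x y h => V0.b.inj h, ?_, ?_⟩
        (fun x y h => V0.s.inj h) (fun x y h => V0.t.inj h) ?_ ?_
      · intro l r
        show _ ∈ bfP V0.b (fun r => {V0.s r}) (l.succ, r)
        rw [bfP_succ]
        simp
      · intro l r
        show _ ∈ bfP V0.b (fun r => {V0.s r}) (l.succ, r)
        rw [bfP_succ]
        simp
      · intro x
        show V0.s x ∈ bfP V0.b (fun r => {V0.s r}) (0, x)
        rw [bfP_zero]
        simp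
      · intro x
        show _ ∈ ({V0.b (Fin.last 7, x), V0.s x} : Finset V0)
        simp
    · rw [V0.card]
      norm_num
  | succ k ih =>
    obtain ⟨W, X, dW, fW, dX, fX, Q, src, snk, l, h1, h2, h3, h4, h5, h6, h7, h8, h9⟩ := ih
    have e : X ≃ (Fin (k + 7) → Bool) := Fintype.equivOfCardEq (by rw [h1]; simp)
    have hp : 2 ^ (k + 7) = 128 * 2 ^ k := by ring
    refine ⟨NV X W (k + 7), X × Bool, inferInstance, inferInstance, inferInstance, inferInstance,
      NV.P e Q src snk, NV.s, NV.t, NV.lvl (Finset.univ.sup l) l, ?_, fun x y h => NV.s.inj h,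
      fun x y h => NV.t.inj h, ?_, ?_, NV.P_card h2 h6, NV.lvl_lt h2 h7
        (fun w => Finset.le_sup (Finset.mem_univ w)), ?_, ?_⟩
    · rw [Fintype.card_prod, h1, Fintype.card_bool]
      ring
    · intro x
      show NV.s x ∈ ({NV.b (Fin.last _, e x.1), NV.s x} : Finset (NV X W (k + 7)))
      simp
    · intro x
      rfl
    · have key : Claim (NV.P e Q src snk) NV.s NV.t (2 * 2 ^ k) := by
        refine claim_step (M := 2 ^ k) (by positivity) hp h2 h3 h4 h8 e (g1 := NV.f) (g2 := NV.g)
          (fun x y h => NV.f.inj h) (fun x y h => NV.g.inj h) (fun x y h => by cases h) ?_ ?_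
          (b1 := NV.a) (b2 := NV.b) ⟨fun x y h => NV.a.inj h, ?_, ?_⟩
          ⟨fun x y h => NV.b.inj h, ?_, ?_⟩ (fun x y h => NV.s.inj h) (fun x y h => NV.t.inj h)
          ?_ ?_ ?_ ?_ ?_
        · intro w u hu
          have hw : ¬ ∃ x, src x = w := by
            rintro ⟨x, rfl⟩
            rw [h5] at hu
            exact absurd hu (Finset.notMem_empty _)
          rw [NV.mem_P_f hw]
          exact Finset.mem_image_of_mem _ hu
        · intro w u hu
          have hw : ¬ ∃ x, src x = w := by
            rintro ⟨x, rfl⟩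
            rw [h5] at hu
            exact absurd hu (Finset.notMem_empty _)
          rw [NV.mem_P_g hw]
          exact Finset.mem_image_of_mem _ hu
        · intro l r
          show _ ∈ bfP NV.a (fun r => {NV.s (e.symm r, false), NV.s (e.symm r, true)}) (l.succ, r)
          rw [bfP_succ]
          simp
        · intro l r
          show _ ∈ bfP NV.a (fun r => {NV.s (e.symm r, false), NV.s (e.symm r, true)}) (l.succ, r)
          rw [bfP_succ]
          simp
        · intro l r
          show _ ∈ bfP NV.b (fun r => {NV.g (snk (e.symm r))}) (l.succ, r)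
          rw [bfP_succ]
          simp
        · intro l r
          show _ ∈ bfP NV.b (fun r => {NV.g (snk (e.symm r))}) (l.succ, r)
          rw [bfP_succ]
          simp
        · intro x b
          show NV.s (x, b) ∈ bfP NV.a (fun r => {NV.s (e.symm r, false), NV.s (e.symm r, true)})
            (0, e x)
          rw [bfP_zero, e.symm_apply_apply]
          cases b <;> simp
        · intro x
          rw [NV.P_f_src h2]
          simp
        · intro x
          rw [NV.P_g_src h2]
          simp
        · intro x
          show NV.g (snk x) ∈ bfP NV.b (fun r => {NV.g (snk (e.symm r))}) (0, e x)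
          rw [bfP_zero, e.symm_apply_apply]
          simp
        · intro x
          show _ ∈ ({NV.b (Fin.last _, e x.1), NV.s x} : Finset (NV X W (k + 7)))
          simp
      rw [pow_succ, Nat.mul_comm]
      exact key
    · rw [NV.card, h1, hp]
      have : 128 * 2 ^ (k + 1) * (k + 1 + 5) ^ 2 =
          2 * (128 * 2 ^ k * (k + 5) ^ 2) + 2 * ((k + 7 + 1) * (128 * 2 ^ k)) +
            4 * (128 * 2 ^ k) + 2 ^ k * 256 * (k + 1) := by ring
      omega

end Pool.Agent.W953.PT
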