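import Mathlib
import Pool.Agent.W953.PT.Graph

/-!
# Configurations with few pebbles
-/

set_option autoImplicit false

namespace Pool.Agent.W953.PT

section

variable {V : Type} [DecidableEq V] (P : V → Finset V) (d : ℕ)

/-- the configurations that can be reached with at most `d` pebbles -/
inductive Reach : Finset V → Prop
  | nil : Reach ∅
  | ins (S : Finset V) (v : V) (h : Reach S) (hP : P v ⊆ S) (hd : (insert v S).card ≤ d) :
      Reach (insert v S)
  | ers (S : Finset V) (v : V) (h : Reach S) : Reach (S.erase v)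

variable {P d}

lemma Reach.card {S : Finset V} (h : Reach P d S) : S.card ≤ d := by
  induction h with
  | nil => simp
  | ins S v _ _ hd _ => exact hd
  | ers S v _ ih => exact (Finset.card_erase_le).trans ih

variable {X : Type} [DecidableEq X] (snk : X → V)

/-- walks that have touched some sinks -/
def Tour (P : V → Finset V) (d : ℕ) (S : Finset V) (Y : Finset X) : Prop :=
  ∃ (n : ℕ) (c : ℕ → Finset V), Peb P c ∧ c 0 = ∅ ∧ (∀ τ, (c τ).card ≤ d) ∧
    (∀ τ, n ≤ τ → c τ = S) ∧ ∀ y ∈ Y, Tch c 0 n (snk y)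

variable {snk}

lemma Tour.step {S S' : Finset V} {Y : Finset X} (h : Tour snk P d S Y) (hS : Step P S S')
    (hd : S'.card ≤ d) : Tour snk P d S' Y := by
  obtain ⟨n, c, h1, h2, h3, h4, h5⟩ := h
  refine ⟨n + 1, fun τ => if τ ≤ n then c τ else S', ?_, ?_, ?_, ?_, ?_⟩
  · intro τ
    by_cases h6 : τ + 1 ≤ n
    · have h7 : τ ≤ n := by omega
      simp only [h6, h7, if_true]
      exact h1 τ
    · by_cases h7 : τ ≤ n
      · have h8 : τ = n := by omega
        subst h8
        simp only [h6, le_refl, if_true, if_false]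
        rw [h4 τ le_rfl]
        exact hS
      · simp only [h6, h7, if_false]
        exact Or.inl rfl
  · simp only [Nat.zero_le, if_true]
    exact h2
  · intro τ
    by_cases h7 : τ ≤ n
    · simp only [h7, if_true]
      exact h3 τ
    · simp only [h7, if_false]
      exact hd
  · intro τ hτ
    have h7 : ¬ τ ≤ n := by omega
    simp only [h7, if_false]
  · intro y hy
    obtain ⟨τ, h6, h7, h8⟩ := h5 y hy
    refine ⟨τ, h6, by omega, ?_⟩
    simp only [h7, if_true]
    exact h8

lemma Tour.touch {S : Finset V} {Y : Finset X} (h : Tour snk P d S Y) {y : X}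
    (hy : snk y ∈ S) : Tour snk P d S (insert y Y) := by
  obtain ⟨n, c, h1, h2, h3, h4, h5⟩ := h
  refine ⟨n, c, h1, h2, h3, h4, fun z hz => ?_⟩
  rcases Finset.mem_insert.mp hz with rfl | hz
  · exact ⟨n, Nat.zero_le _, le_rfl, by rw [h4 n le_rfl]; exact hy⟩
  · exact h5 z hz

lemma Tour.reach {S : Finset V} {Y : Finset X} (h : Tour snk P d ∅ Y) (hS : Reach P d S) :
    Tour snk P d S Y := by
  induction hS with
  | nil => exact h
  | ins S v _ hP hd ih => exact ih.step (Or.inr (Or.inl ⟨v, hP, rfl⟩)) hd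
  | ers S v hS ih =>
    exact ih.step (Or.inr (Or.inr ⟨v, rfl⟩)) ((Finset.card_erase_le).trans hS.card)

lemma Tour.clear {Y : Finset X} : ∀ (n : ℕ) (S : Finset V), S.card = n → S.card ≤ d →
    Tour snk P d S Y → Tour snk P d ∅ Y := by
  intro n
  induction n with
  | zero =>
    intro S hS _ h
    rw [Finset.card_eq_zero] at hS
    rw [hS] at h
    exact h
  | succ n ih =>
    intro S hS hd h
    obtain ⟨v, hv⟩ := Finset.card_pos.mp (by omega : 0 < S.card)
    have h1 : (S.erase v).card = n := by rw [Finset.card_erase_of_mem hv]; omega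
    exact ih (S.erase v) h1 (by omega) (h.step (Or.inr (Or.inr ⟨v, rfl⟩)) (by omega))

/-- Some sink cannot be reached with fewer than `M` pebbles. -/
theorem exists_sink [Fintype X] {M : ℕ} (hM : 0 < M) {src : X → V} (hcl : Claim P src snk M)
    (hX : 30 * M ≤ Fintype.card X) :
    ∃ x, ∀ S, Reach P (M - 1) S → snk x ∉ S := by
  by_contra hcon
  push Not at hcon
  have key : ∀ Y : Finset X, Tour snk P (M - 1) ∅ Y := by
    intro Y
    induction Y using Finset.induction_on with
    | empty =>
      exact ⟨0, fun _ => ∅, fun _ => Or.inl rfl, rfl, fun _ => by simp, fun _ _ => rfl,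
        fun y hy => absurd hy (Finset.notMem_empty _)⟩
    | insert y Y _ ih =>
      obtain ⟨S, h1, h2⟩ := hcon y
      exact Tour.clear S.card S rfl h1.card ((ih.reach h1).touch h2)
  obtain ⟨n, c, h1, h2, h3, -, h5⟩ := key Finset.univ
  have h6 : (T c 0 n snk).card = Fintype.card X := by
    rw [← Finset.card_univ]
    congr 1
    ext x
    rw [mem_T]
    exact ⟨fun _ => Finset.mem_univ _, fun _ => h5 x (Finset.mem_univ _)⟩
  obtain ⟨s', t', h7, h8, h9, h10, -⟩ := hcl c h1 0 n (Nat.zero_le _) (by rw [h2]; simp)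
    (by rw [h6]; exact hX)
  have h11 := h10 s' le_rfl h8
  have h12 := h3 s'
  omega

end

/-- Graphs with few vertices and a vertex that needs many pebbles. -/
theorem exists_hard (k : ℕ) : ∃ (V : Type) (_ : DecidableEq V) (_ : Fintype V)
    (P : V → Finset V) (t : V) (lvl : V → ℕ), (∀ v, (P v).card ≤ 2) ∧
    (∀ v, ∀ u ∈ P v, lvl u < lvl v) ∧ Fintype.card V ≤ 128 * 2 ^ k * (k + 5) ^ 2 ∧
    2 ^ k ≤ Fintype.card V ∧ ∀ S, Reach P (2 ^ k - 1) S → t ∉ S := by
  obtain ⟨V, X, dV, fV, dX, fX, P, src, snk, lvl, h1, -, h3, -, -, h6, h7, h8, h9⟩ :=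
    exists_graph k
  have h10 : 2 ^ k ≤ Fintype.card V := by
    refine le_trans ?_ (Fintype.card_le_of_injective snk h3)
    rw [h1]
    exact Nat.pow_le_pow_right (by norm_num) (by omega)
  obtain ⟨x, hx⟩ := exists_sink (P := P) (snk := snk) (by positivity) h8 (by
    rw [h1, pow_add]
    have : (2 : ℕ) ^ 7 = 128 := by norm_num
    omega)
  exact ⟨V, dV, fV, P, snk x, lvl, h6, h7, h9, h10, hx⟩

end Pool.Agent.W953.PT
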