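import Mathlib
import Pool.Agent.H560R2.Dep4
import Pool.Agent.W953.PT.Reach

/-!
# Monotone depth of the lifted pebbling function
-/

set_option autoImplicit false

namespace Pool.Agent.W953.PT

open Pool.Agent.H560R2

section

variable {V : Type} [DecidableEq V] [Fintype V]

/-- Monotone trees separating the positive from the negative inputs are deep. -/
theorem gen_depth {P : V → Finset V} {t : V} {d q : ℕ} (hq : 1 ≤ q) (hP : ∀ v, v ∉ P v)
    (ht : ∀ S, Reach P d S → t ∉ S) (hn : d + 1 ≤ Fintype.card V) {D : ℕ}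
    {g : (PVar P q → Bool) → Bool} (hg : MD (pbase (PVar P q)) D g)
    (h1 : ∀ x, g (pα P t q x) = true) (h2 : ∀ y, g (pβ P t q y) = false) :
    q ^ (d + 1) ≤ 2 ^ D * (Fintype.card V).choose d := by
  classical
  obtain ⟨n, hnn⟩ : ∃ n, Fintype.card V = n := ⟨_, rfl⟩
  set R : Finset (Finset V) := Finset.univ.filter (fun S => Reach P d S) with hR
  have hR0 : ∅ ∈ R := Finset.mem_filter.mpr ⟨Finset.mem_univ _, Reach.nil⟩
  have hRc : ∀ S ∈ R, S.card ≤ d := fun S hS => (Finset.mem_filter.mp hS).2.card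
  have hRi : ∀ v, ∀ S ∈ R, P v ⊆ S → v ∉ S → S.card < d → insert v S ∈ R := by
    intro v S hS hPS hv hlt
    refine Finset.mem_filter.mpr ⟨Finset.mem_univ _, Reach.ins S v (Finset.mem_filter.mp hS).2 hPS ?_⟩
    rw [Finset.card_insert_of_notMem hv]
    exact hlt
  have hRe : ∀ v, ∀ S ∈ R, P v ⊆ S → v ∈ S → S.erase v ∈ R := fun v S hS _ _ =>
    Finset.mem_filter.mpr ⟨Finset.mem_univ _, Reach.ers S v (Finset.mem_filter.mp hS).2⟩
  have hRt : ∀ S ∈ R, t ∉ S := fun S hS => ht S (Finset.mem_filter.mp hS).2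
  obtain ⟨r, hr⟩ : ∃ r, r = n.choose d * q ^ (n - (d + 1)) := ⟨_, rfl⟩
  have hbase : ∀ b ∈ pbase (PVar P q),
      (mask (amat q R) (fun x => b (pα P t q x)) (fun y => !(b (pβ P t q y)))).rank ≤ r := by
    rintro b (⟨c, rfl⟩ | ⟨i, rfl⟩)
    · have : mask (amat q R) (fun _ => c) (fun _ => !c) = 0 := by
        ext x y
        simp only [mask, Matrix.of_apply, Matrix.zero_apply]
        rcases c with _ | _ <;> simp
      rw [this, Matrix.rank_zero]
      exact Nat.zero_le _
    · rcases i with ⟨v, ρ⟩ | c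
      · have := mask_rank (q := q) R d (P v) v (hP v) hRc (hRi v) (hRe v)
          (fun x => pα P t q x (Sum.inl ⟨v, ρ⟩))
          (fun y => !(pβ P t q y (Sum.inl ⟨v, ρ⟩))) (by
            intro x y hx hy
            simp only [pα, decide_eq_true_eq] at hx
            simp only [pβ, Bool.not_eq_true', decide_eq_false_iff_not, not_not] at hy
            refine ⟨fun i hi => ?_, ?_⟩
            · have := hx ⟨i, Finset.mem_insert_of_mem hi⟩
              simp only at this
              rw [this]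
              exact hy.1 i hi
            · have := hx ⟨v, Finset.mem_insert_self _ _⟩
              simp only at this
              rw [this]
              exact hy.2)
        rw [hnn, ← hr] at this
        exact this
      · have := mask_sink (q := q) R t hRt (fun x => pα P t q x (Sum.inr c))
          (fun y => !(pβ P t q y (Sum.inr c))) (by
            intro x y hx hy
            simp only [pα, decide_eq_true_eq] at hx
            simp only [pβ, Bool.not_not] at hy
            rw [hx]
            exact hy)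
        rw [this]
        exact Nat.zero_le _
  have hD := rank_depth (amat q R) (pα P t q) (pβ P t q) r hbase hg (fun _ => true)
    (fun _ => true) (fun x _ => h1 x) (fun y _ => h2 y)
  have hmask : mask (amat q R) (fun _ => true) (fun _ => true) = amat q R := by
    ext x y
    simp [mask]
  rw [hmask] at hD
  have hlow := (amat_rank (q := q) R hR0).trans hD
  rw [hnn] at hlow hn ⊢
  rw [hr] at hlow
  have hsplit : q ^ n = q ^ (n - (d + 1)) * q ^ (d + 1) := by
    rw [← pow_add]; congr 1; omega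
  rw [hsplit] at hlow
  have e : 2 ^ D * (n.choose d * q ^ (n - (d + 1))) =
      q ^ (n - (d + 1)) * (2 ^ D * n.choose d) := by ring
  rw [e] at hlow
  exact Nat.le_of_mul_le_mul_left hlow (by positivity)

end

/-! ### numbers -/

lemma succ_pow_le (m : ℕ) (hm : 1 ≤ m) : (m + 1) ^ m ≤ 4 * m ^ m := by
  have hm0 : (0 : ℝ) < m := by exact_mod_cast hm
  have h1 : ((m : ℝ) + 1) ^ m ≤ 4 * (m : ℝ) ^ m := by
    have h2 : ((m : ℝ) + 1) = (1 + 1 / m) * m := by field_simp
    have h3 : (1 + 1 / (m : ℝ)) ^ m ≤ 4 := by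
      have h4 : (1 : ℝ) + 1 / m ≤ Real.exp (1 / m) := by
        have := Real.add_one_le_exp (1 / (m : ℝ)); linarith
      calc (1 + 1 / (m : ℝ)) ^ m ≤ (Real.exp (1 / m)) ^ m :=
            pow_le_pow_left₀ (by positivity) h4 m
        _ = Real.exp 1 := by rw [← Real.exp_nat_mul]; congr 1; field_simp
        _ ≤ 4 := by have := Real.exp_one_lt_d9; linarith
    rw [h2, mul_pow]
    exact mul_le_mul_of_nonneg_right h3 (by positivity)
  exact_mod_cast h1

lemma pow_le_fac : ∀ d : ℕ, (d + 1) ^ d ≤ 4 ^ d * d.factorial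
  | 0 => by simp
  | d + 1 => by
    have h1 := pow_le_fac d
    have h2 := succ_pow_le (d + 1) (Nat.succ_pos d)
    calc (d + 1 + 1) ^ (d + 1) ≤ 4 * (d + 1) ^ (d + 1) := h2
      _ = 4 * (d + 1) * (d + 1) ^ d := by ring
      _ ≤ 4 * (d + 1) * (4 ^ d * d.factorial) := Nat.mul_le_mul_left _ h1
      _ = 4 ^ (d + 1) * (d + 1).factorial := by rw [Nat.factorial_succ]; ring

lemma choose_bound {n d u : ℕ} (h : n ≤ (d + 1) * u) : n.choose d ≤ (4 * u) ^ d := by
  have h1 : n.choose d * d.factorial ≤ n ^ d := by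
    have := Nat.choose_le_pow_div (α := ℚ) d n
    rw [le_div_iff₀ (by exact_mod_cast Nat.factorial_pos d)] at this
    exact_mod_cast this
  have h2 : n.choose d * d.factorial ≤ (4 * u) ^ d * d.factorial := by
    calc n.choose d * d.factorial ≤ n ^ d := h1
      _ ≤ ((d + 1) * u) ^ d := Nat.pow_le_pow_left h d
      _ = (d + 1) ^ d * u ^ d := mul_pow _ _ _
      _ ≤ (4 ^ d * d.factorial) * u ^ d := Nat.mul_le_mul_right _ (pow_le_fac d)
      _ = (4 * u) ^ d * d.factorial := by rw [mul_pow]; ring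
  exact Nat.le_of_mul_le_mul_right h2 (Nat.factorial_pos d)

/-- A function with large monotone depth: `2 ^ (k + 1)` although there are only
`2 ^ k polylog` variables. -/
theorem depth_bound {V : Type} [DecidableEq V] [Fintype V] {P : V → Finset V} {t : V} {d u : ℕ}
    (hu : 1 ≤ u) (hP : ∀ v, v ∉ P v) (ht : ∀ S, Reach P d S → t ∉ S)
    (hn : Fintype.card V ≤ (d + 1) * u) {D : ℕ}
    {g : (PVar P (16 * u) → Bool) → Bool} (hg : MD (pbase (PVar P (16 * u))) D g)
    (h1 : ∀ x, g (pα P t (16 * u) x) = true) (h2 : ∀ y, g (pβ P t (16 * u) y) = false)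
    (hn' : d + 1 ≤ Fintype.card V) :
    2 * (d + 1) ≤ D := by
  have h3 := gen_depth (by omega) hP ht hn' hg h1 h2
  have h4 := choose_bound hn
  have h5 : 4 ^ (d + 1) * (4 * u) ^ d ≤ 2 ^ D * (4 * u) ^ d := by
    calc 4 ^ (d + 1) * (4 * u) ^ d ≤ 4 ^ (d + 1) * (4 * u) ^ (d + 1) :=
          Nat.mul_le_mul_left _ (Nat.pow_le_pow_right (by omega) (by omega))
      _ = (16 * u) ^ (d + 1) := by rw [← mul_pow]; congr 1; ring
      _ ≤ 2 ^ D * (Fintype.card V).choose d := h3
      _ ≤ 2 ^ D * (4 * u) ^ d := Nat.mul_le_mul_left _ h4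
  have h6 : 4 ^ (d + 1) ≤ 2 ^ D := Nat.le_of_mul_le_mul_right h5 (by positivity)
  have h8 : (4 : ℕ) ^ (d + 1) = 2 ^ (2 * (d + 1)) := by rw [pow_mul]; norm_num
  rw [h8] at h6
  exact (Nat.pow_le_pow_iff_right (by norm_num)).mp h6

end Pool.Agent.W953.PT
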