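import Mathlib
import Pool.Agent.W953.NW.Low

/-!
# The lower bound for the number of NOT gates, for circuits, in general form
-/

set_option autoImplicit false

namespace Pool.Agent.W953.PT

open Pool.Agent.H540R2 Pool.Agent.H540R2.Circuit Pool.Agent.W953.NW

/-- a function with small monotone circuits whose shallow circuits have many negations -/
def HardFun (D N M : ℕ) : Prop :=
    ∃ f : (Fin N → Bool) → Bool,
      (∃ (g : ℕ) (b : Fin g → Bool) (l r : Fin g → Fin N ⊕ Fin g)
        (v : (Fin N → Bool) → Fin g → Bool) (o : Fin g), g ≤ 3 * N ∧
        (∀ i k, l i = Sum.inr k ∨ r i = Sum.inr k → k < i) ∧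
        (∀ x i, v x i = if b i = true
          then (Sum.elim x (v x) (l i) && Sum.elim x (v x) (r i))
          else (Sum.elim x (v x) (l i) || Sum.elim x (v x) (r i))) ∧
        ∀ x, v x o = f x) ∧
      ∀ (s : ℕ) (T : Finset (Fin s)) (w : Fin s → ℕ) (a : ∀ i, Fin (w i) → Fin N ⊕ Fin s)
        (dep : Fin s → ℕ) (_ : ∀ i, 1 ≤ dep i ∧ dep i ≤ D)
        (_ : ∀ i j k, a i j = Sum.inr k → k < i ∧ dep k < dep i)
        (op : ∀ i, (Fin (w i) → Bool) → Bool) (_ : ∀ i ∉ T, w i ≤ 2 ∧ Monotone (op i))
        (val : (Fin N → Bool) → Fin s → Bool) (inp : (Fin N → Bool) → ∀ i, Fin (w i) → Bool)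
        (_ : ∀ x i j, inp x i j = Sum.elim x (val x) (a i j))
        (_ : ∀ x i, val x i = op i (inp x i)) (o : Fin s) (_ : ∀ x, val x o = f x),
        M < ∏ i ∈ T, (w i + 1)

/-- The hard functions, for circuits. -/
theorem hard_of {D N M : ℕ} (hNpos : 0 < N) (H : HardFun D N M) :
    ∃ C : Circuit N, C.Monotone ∧ C.size ≤ 3 * N ∧
      ∀ C' : Circuit N, C.Equiv C' → C'.depth + 1 ≤ D → M < 2 ^ C'.nots := by
  classical
  obtain ⟨f, ⟨g, b, l, r, v, o, hg, htop, hv, hvo⟩, hlow⟩ := H
  have i0 : Fin N := ⟨0, hNpos⟩
  -- the monotone circuit
  set nd : Fin N ⊕ Fin g → Node N := fun a => Sum.elim (fun i => .var i) (fun k => .gate k.val) a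
    with hnd
  set C : Circuit N :=
    { size := g
      gate := fun i => if h : i < g then
          (if b ⟨i, h⟩ = true then .and (nd (l ⟨i, h⟩)) (nd (r ⟨i, h⟩)) else
            .or (nd (l ⟨i, h⟩)) (nd (r ⟨i, h⟩))) else .and (.const true) (.const true)
      out := .gate o.val
      gate_lt := by
        intro i hi j hj
        rw [dif_pos hi] at hj
        have hw : ∀ a : Fin N ⊕ Fin g, (nd a).wires j ≠ 0 → ∃ k : Fin g, a = Sum.inr k ∧
            k.val = j := by
          intro a ha
          rcases a with i' | k
          · exact absurd rfl ha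
          · refine ⟨k, rfl, ?_⟩
            simp only [hnd, Sum.elim_inr, Node.wires] at ha
            by_contra hne
            exact ha (if_neg hne)
        have hcase : (nd (l ⟨i, hi⟩)).wires j ≠ 0 ∨ (nd (r ⟨i, hi⟩)).wires j ≠ 0 := by
          split_ifs at hj
          · exact add_ne_zero_cases hj
          · exact add_ne_zero_cases hj
        rcases hcase with h | h
        · obtain ⟨k, hk1, hk2⟩ := hw _ h
          have := htop ⟨i, hi⟩ k (Or.inl hk1)
          rw [← hk2]
          exact this
        · obtain ⟨k, hk1, hk2⟩ := hw _ h
          have := htop ⟨i, hi⟩ k (Or.inr hk1)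
          rw [← hk2]
          exact this
      out_lt := by
        intro j hj
        simp only [Node.wires] at hj
        by_cases h : o.val = j
        · rw [← h]; exact o.isLt
        · exact absurd (if_neg h) hj } with hC
  have hCval : ∀ x, ∀ i : Fin g, C.val x i.val = v x i := by
    intro x i
    obtain ⟨i, hi⟩ := i
    induction i using Nat.strong_induction_on with
    | _ i ih =>
      rw [C.val_gate (show i < C.size from hi), hv]
      have hgate : C.gate i = if b ⟨i, hi⟩ = true then .and (nd (l ⟨i, hi⟩)) (nd (r ⟨i, hi⟩)) else
            .or (nd (l ⟨i, hi⟩)) (nd (r ⟨i, hi⟩)) := dif_pos hi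
      have hnode : ∀ a : Fin N ⊕ Fin g, (∀ k, a = Sum.inr k → k < ⟨i, hi⟩) →
          (nd a).eval x (C.val x) = Sum.elim x (v x) a := by
        intro a ha
        rcases a with i' | k
        · rfl
        · exact ih k.val (ha k rfl) k.isLt
      have h1 := hnode (l ⟨i, hi⟩) (fun k hk => htop ⟨i, hi⟩ k (Or.inl hk))
      have h2 := hnode (r ⟨i, hi⟩) (fun k hk => htop ⟨i, hi⟩ k (Or.inr hk))
      rw [hgate]
      by_cases hb : b ⟨i, hi⟩ = true
      · rw [if_pos hb, if_pos hb]
        simp only [Gate.eval]
        rw [h1, h2]
      · rw [if_neg hb, if_neg hb]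
        simp only [Gate.eval]
        rw [h1, h2]
  have hCf : ∀ x, C.eval x = f x := by
    intro x
    rw [← hvo x]
    exact hCval x o
  refine ⟨C, ?_, hg, ?_⟩
  · intro i hi a h
    have hgate : C.gate i = if b ⟨i, hi⟩ = true then .and (nd (l ⟨i, hi⟩)) (nd (r ⟨i, hi⟩)) else
            .or (nd (l ⟨i, hi⟩)) (nd (r ⟨i, hi⟩)) := dif_pos hi
    rw [hgate] at h
    split_ifs at h
  · intro C' hEq hdep
    set s := C'.size + 1 with hs
    have hs0 : 0 < s := Nat.succ_pos _
    -- shallow gates
    set sh : ℕ → Prop := fun i => i < C'.size ∧ C'.gateDepth i + 1 ≤ D with hsh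
    set T : Finset (Fin s) := Finset.univ.filter
      (fun i => sh i.val ∧ (C'.gate i.val).isNot = true) with hT
    set w : Fin s → ℕ := fun i => if i ∈ T then 1 else 2 with hw
    set A : Fin s → ℕ → Fin N ⊕ Fin s := fun i j =>
      if sh i.val then (if j = 0 then wireOf s hs0 i0 (lft (C'.gate i.val)) else
        wireOf s hs0 i0 (rgt (C'.gate i.val)))
      else if i.val = C'.size then wireOf s hs0 i0 C'.out else Sum.inl i0 with hA
    set G : Fin s → Bool → Bool → Bool := fun i b₀ b₁ =>
      if sh i.val then opOf (C'.gate i.val) b₀ b₁
      else if i.val = C'.size then bitOf C'.out b₀ else false with hG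
    set val : (Fin N → Bool) → Fin s → Bool := fun x i =>
      if sh i.val then C'.val x i.val else if i.val = C'.size then C'.eval x else false with hval
    set dep : Fin s → ℕ := fun i =>
      if sh i.val then C'.gateDepth i.val else if i.val = C'.size then D else 1 with hdp
    have hD1 : 1 ≤ D := by omega
    have hnot : ∀ j : ℕ, j = C'.size → ¬ sh j := fun j hj h => by
      have := h.1
      omega
    have hout : ∀ j, C'.out.wires j ≠ 0 → sh j := by
      intro j hj
      refine ⟨C'.out_lt j hj, ?_⟩
      have : C'.depth = C'.gateDepth j := node_depth_of_wire hj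
      omega
    have hchild : ∀ i, sh i → ∀ j, (C'.gate i).wires j ≠ 0 → j < i := fun i hi j hj =>
      C'.gate_lt i hi.1 j hj
    have hlsh : ∀ i, sh i → ∀ j, (lft (C'.gate i)).wires j ≠ 0 →
        sh j ∧ C'.gateDepth j < C'.gateDepth i := by
      intro i hi j hj
      have h1 := hchild i hi j (lft_wires hj)
      have h2 := lft_depth (C'.gate i) C'.gateDepth
      rw [node_depth_of_wire hj, ← C'.gateDepth_gate hi.1] at h2
      exact ⟨⟨h1.trans hi.1, by have := hi.2; omega⟩, by omega⟩
    have hrsh : ∀ i, sh i → ∀ j, (rgt (C'.gate i)).wires j ≠ 0 →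
        sh j ∧ C'.gateDepth j < C'.gateDepth i := by
      intro i hi j hj
      have h1 := hchild i hi j (rgt_wires hj)
      have h2 := rgt_depth (C'.gate i) C'.gateDepth
      rw [node_depth_of_wire hj, ← C'.gateDepth_gate hi.1] at h2
      exact ⟨⟨h1.trans hi.1, by have := hi.2; omega⟩, by omega⟩
    have hdepT : ∀ i, 1 ≤ dep i ∧ dep i ≤ D := by
      intro i
      simp only [hdp]
      split_ifs with h1 h2
      · exact ⟨gateDepth_pos C' _ h1.1, by have := h1.2; omega⟩
      · exact ⟨hD1, le_rfl⟩
      · exact ⟨le_rfl, hD1⟩
    have hvalsh : ∀ x, ∀ j (hj : j < s), sh j → val x ⟨j, hj⟩ = C'.val x j := by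
      intro x j hj h
      simp only [hval]
      rw [if_pos h]
    have hmain := hlow s T w (fun i j => A i j.val) dep hdepT
      (by
        intro i j k h
        simp only [hA] at h
        by_cases h1 : sh i.val
        · rw [if_pos h1] at h
          have hlt : ∀ a : Node N, wireOf s hs0 i0 a = Sum.inr k →
              (∀ j, a.wires j ≠ 0 → sh j ∧ C'.gateDepth j < C'.gateDepth i.val ∧ j < i.val) →
              k < i ∧ dep k < dep i := by
            intro a ha haw
            have h2 := wireOf_inr ha (fun j hj => by
              have := (haw j hj).1.1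
              omega)
            obtain ⟨h3, h4, h5⟩ := haw k.val h2
            refine ⟨h5, ?_⟩
            simp only [hdp]
            rw [if_pos h3, if_pos h1]
            exact h4
          split_ifs at h
          · exact hlt _ h (fun j hj => ⟨(hlsh i.val h1 j hj).1, (hlsh i.val h1 j hj).2,
              hchild i.val h1 j (lft_wires hj)⟩)
          · exact hlt _ h (fun j hj => ⟨(hrsh i.val h1 j hj).1, (hrsh i.val h1 j hj).2,
              hchild i.val h1 j (rgt_wires hj)⟩)
        · rw [if_neg h1] at h
          by_cases h2 : i.val = C'.size
          · rw [if_pos h2] at h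
            have h3 := wireOf_inr h (fun j hj => by
              have := (hout j hj).1
              omega)
            have h4 := hout k.val h3
            refine ⟨?_, ?_⟩
            · rw [Fin.lt_def, h2]
              exact h4.1
            · simp only [hdp]
              rw [if_pos h4, if_neg h1, if_pos h2]
              have := h4.2
              omega
          · rw [if_neg h2] at h
            exact absurd h (by simp))
      (fun i bb => G i (if h : 0 < w i then bb ⟨0, h⟩ else false)
        (if h : 1 < w i then bb ⟨1, h⟩ else false))
      (by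
        intro i hi
        have hwi : w i = 2 := by simp only [hw]; rw [if_neg hi]
        refine ⟨hwi.le, ?_⟩
        intro u u' huu
        have e0 : (if h : 0 < w i then u ⟨0, h⟩ else false) ≤
            (if h : 0 < w i then u' ⟨0, h⟩ else false) := by
          split_ifs with h
          · exact huu _
          · exact le_rfl
        have e1 : (if h : 1 < w i then u ⟨1, h⟩ else false) ≤
            (if h : 1 < w i then u' ⟨1, h⟩ else false) := by
          split_ifs with h
          · exact huu _
          · exact le_rfl
        show G i _ _ ≤ G i _ _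
        simp only [hG]
        by_cases h1 : sh i.val
        · rw [if_pos h1, if_pos h1]
          have h2 : (C'.gate i.val).isNot = false := by
            by_contra hne
            apply hi
            rw [hT, Finset.mem_filter]
            exact ⟨Finset.mem_univ _, h1, by simpa using hne⟩
          exact opOf_mono h2 e0 e1
        · rw [if_neg h1, if_neg h1]
          by_cases h2 : i.val = C'.size
          · rw [if_pos h2, if_pos h2]
            exact bitOf_mono _ e0
          · rw [if_neg h2, if_neg h2])
      val (fun x i j => Sum.elim x (val x) (A i j.val)) (fun x i j => rfl)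
      (by
        intro x i
        have hw0 : 0 < w i := by simp only [hw]; split_ifs <;> norm_num
        show val x i = G i _ _
        rw [dif_pos hw0]
        by_cases h1 : sh i.val
        · have e0 : val x i = C'.val x i.val := hvalsh x i.val i.isLt h1
          have eA0 : A i 0 = wireOf s hs0 i0 (lft (C'.gate i.val)) := by
            simp only [hA]
            rw [if_pos h1]
            simp
          have eA1 : A i 1 = wireOf s hs0 i0 (rgt (C'.gate i.val)) := by
            simp only [hA]
            rw [if_pos h1]
            simp
          rw [e0, C'.val_gate h1.1]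
          simp only [hG]
          rw [if_pos h1]
          have hL : bitOf (lft (C'.gate i.val)) (Sum.elim x (val x) (A i 0)) =
              (lft (C'.gate i.val)).eval x (C'.val x) := by
            rw [eA0]
            apply bitOf_wire
            intro j hj
            have h3 := (hlsh i.val h1 j hj).1
            exact ⟨by have := h3.1; omega, hvalsh x j _ h3⟩
          have hR : bitOf (rgt (C'.gate i.val)) (Sum.elim x (val x) (A i 1)) =
              (rgt (C'.gate i.val)).eval x (C'.val x) := by
            rw [eA1]
            apply bitOf_wire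
            intro j hj
            have h3 := (hrsh i.val h1 j hj).1
            exact ⟨by have := h3.1; omega, hvalsh x j _ h3⟩
          by_cases hiT : i ∈ T
          · -- a NOT gate
            have hn : (C'.gate i.val).isNot = true := by
              rw [hT, Finset.mem_filter] at hiT
              exact hiT.2.2
            have hw1 : ¬ 1 < w i := by simp only [hw]; rw [if_pos hiT]; norm_num
            rw [dif_neg hw1]
            cases hgg : C'.gate i.val with
            | and a b => rw [hgg] at hn; simp [Gate.isNot] at hn
            | or a b => rw [hgg] at hn; simp [Gate.isNot] at hn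
            | not a =>
              rw [hgg] at hL
              simp only [lft] at hL
              simp only [opOf, Gate.eval]
              rw [hL]
          · have hw1 : 1 < w i := by simp only [hw]; rw [if_neg hiT]; norm_num
            rw [dif_pos hw1]
            exact (opOf_eval _ x (C'.val x) _ _ hL hR).symm
        · simp only [hval, hG]
          rw [if_neg h1, if_neg h1]
          by_cases h2 : i.val = C'.size
          · rw [if_pos h2, if_pos h2]
            have eA0 : A i 0 = wireOf s hs0 i0 C'.out := by
              simp only [hA]
              rw [if_neg h1, if_pos h2]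
            have := bitOf_wire s hs0 i0 x (C'.val x) (val x) C'.out (fun j hj =>
              ⟨by have := (hout j hj).1; omega, hvalsh x j _ (hout j hj)⟩)
            rw [← eA0] at this
            exact this.symm
          · rw [if_neg h2, if_neg h2])
      ⟨C'.size, Nat.lt_succ_self _⟩
      (by
        intro x
        simp only [hval]
        rw [if_neg (hnot _ rfl), if_pos trivial, ← hEq x, hCf])
    refine lt_of_lt_of_le hmain ?_
    have hprod : ∏ i ∈ T, (w i + 1) = 2 ^ T.card := by
      rw [← Finset.prod_const]
      refine Finset.prod_congr rfl (fun i hi => ?_)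
      simp only [hw]
      rw [if_pos hi]
    rw [hprod]
    apply Nat.pow_le_pow_right (by norm_num)
    unfold Circuit.nots
    refine Finset.card_le_card_of_injOn (fun i => i.val) (fun i hi => ?_)
      (fun i _ j _ h => Fin.ext h)
    have hi' := (Finset.mem_filter.mp (Finset.mem_coe.mp hi)).2
    exact Finset.mem_coe.mpr (Finset.mem_filter.mpr ⟨Finset.mem_range.mpr hi'.1.1, hi'.2⟩)

end Pool.Agent.W953.PT
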