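import Mathlib
import Pool.Agent.W953.PT.Depth
import Pool.Agent.W953.PT.Low

/-!
# Negations: the OR of copies of the lifted pebbling function of the new graphs
-/

set_option autoImplicit false

namespace Pool.Agent.W953.PT

open Finset Pool.Agent.H520R2 Pool.Agent.H520R2.NM Pool.Agent.H560R2

section

variable {V : Type} [DecidableEq V] [Fintype V] {P : V → Finset V} {t : V}
variable {I : Type} {s : ℕ} {T : Finset (Fin s)} {w : Fin s → ℕ}
  {a : ∀ i, Fin (w i) → I ⊕ Fin s}
  {op : ∀ i, (Fin (w i) → Bool) → Bool} {dep : Fin s → ℕ}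

/-- the chain -/
theorem dep_chain' {d u : ℕ} (hu : 1 ≤ u) (lvl : V → ℕ) (hlvl : ∀ v, ∀ u ∈ P v, lvl u < lvl v)
    (ht : ∀ S, Reach P d S → t ∉ S) (hn : Fintype.card V ≤ (d + 1) * u)
    (hn' : d + 1 ≤ Fintype.card V)
    (D M : ℕ) (hDd : D ≤ d) (e : Fin M × PVar P (16 * u) → I)
    (he : Function.Injective e)
    (hd1 : ∀ i, 1 ≤ dep i)
    (hdep : ∀ i j k, a i j = Sum.inr k → dep k < dep i)
    (hmon : ∀ i ∉ T, w i ≤ 2 ∧ Monotone (op i)) (hD : ∀ i, dep i ≤ D)
    (val : (I → Bool) → Fin s → Bool)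
    (hval : ∀ x i, val x i = op i (fun j => Sum.elim x (val x) (a i j)))
    (o : Fin s) (ho : ∀ x, val x o = orPeb P t (16 * u) M e x)
    (hT : ∑ i ∈ T, w i < 2 ^ (D + 1)) :
    ∃ x : ℕ → I → Bool, (∀ i < M, x i ≤ x (i + 1) ∧ ∃ t ∈ T, ∃ j,
        Sum.elim (x i) (val (x i)) (a t j) ≠ Sum.elim (x (i + 1)) (val (x (i + 1))) (a t j)) ∧
      ∀ i ≤ M, val (x i) o = false := by
  classical
  have hPv : ∀ v, v ∉ P v := fun v hv => lt_irrefl _ (hlvl v v hv)
  -- values of the function on filled inputs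
  have hfill : ∀ Y : Fin M → PVar P (16 * u) → Bool, val (fill e Y) o = true ↔
      ∃ J, pebF P t (16 * u) (Y J) := by
    intro Y
    rw [ho]
    have e1 : orPeb P t (16 * u) M e (fill e Y) = true ↔
        ∃ J, pebF P t (16 * u) (fun r => fill e Y (e (J, r))) := by
      unfold orPeb
      exact decide_eq_true_iff
    rw [e1]
    refine exists_congr fun J => ?_
    have : (fun r => fill e Y (e (J, r))) = Y J := by
      funext r
      exact fill_apply e he Y (J, r)
    rw [this]
  have hz0 : ¬ pebF P t (16 * u) (fun _ => false) := by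
    rintro ⟨c, h, -⟩
    exact absurd h (by simp)
  -- the probes
  let pr : (Fin M → PVar P (16 * u) → Bool) → (∀ t : Fin s, Fin (w t) → Bool) := fun Y t j =>
    if t ∈ T then Sum.elim (fill e Y) (val (fill e Y)) (a t j) else false
  obtain ⟨Y, h1, h2, h3⟩ := chain_core (κ := Fin M) (m := M)
    (fun X => ¬ pebF P t (16 * u) X) (fun _ => false) hz0 id (fun _ _ h => h) pr (by
      intro y J hy hyJ
      by_contra hcon
      push Not at hcon
      obtain ⟨g, hg, hgx⟩ := flip_depth (T := T) hd1 hdep hmon hD val hval o (fill e y)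
        {x | ∃ X, x = fill e (Function.update y J X)} (by
          rintro _ ⟨X, rfl⟩
          refine fill_mono e _ _ fun J' r => ?_
          by_cases hJ : J' = J
          · subst hJ
            rw [hyJ]
            exact Bool.false_le _
          · rw [Function.update_of_ne hJ]) (by
          rintro _ ⟨X, rfl⟩ hfalse i' hi' j
          have hX : ¬ pebF P t (16 * u) X := by
            intro hX
            have := (hfill (Function.update y J X)).mpr ⟨J, by rwa [Function.update_self]⟩
            rw [this] at hfalse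
            exact absurd hfalse (by simp)
          have := congrFun (congrFun (hcon X hX) i') j
          simp only [pr, if_pos hi'] at this
          exact this) (D + 1) (by omega)
      have hg' := MD.comp (B' := pbase (PVar P (16 * u)))
        (fun X => fill e (Function.update y J X)) (fill_base e y J) hg
      have hiff : ∀ X, g (fill e (Function.update y J X)) = true ↔
          pebF P t (16 * u) X := by
        intro X
        rw [hgx _ ⟨X, rfl⟩, hfill]
        constructor
        · rintro ⟨J', hJ'⟩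
          by_cases hJ : J' = J
          · subst hJ
            rwa [Function.update_self] at hJ'
          · rw [Function.update_of_ne hJ] at hJ'
            exact absurd hJ' (hy J')
        · intro hX
          exact ⟨J, by rwa [Function.update_self]⟩
      have := depth_bound hu hPv ht hn hg' (fun x => (hiff _).mpr (peb_pos lvl hlvl x))
        (fun y' => by
          rw [← Bool.not_eq_true]
          intro h
          exact peb_neg y' ((hiff _).mp h)) hn'
      omega)
  refine ⟨fun i => fill e (Y i), fun i hi => ⟨?_, ?_⟩, fun i hi => ?_⟩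
  · obtain ⟨J, X, hJ, hX⟩ := h1 i hi
    show fill e (Y i) ≤ fill e (Y (i + 1))
    rw [hX]
    refine fill_mono e _ _ fun J' r => ?_
    by_cases hJ' : J' = J
    · subst hJ'
      rw [hJ]
      exact Bool.false_le _
    · rw [Function.update_of_ne hJ']
  · by_contra hcon
    push Not at hcon
    apply h2 i hi
    funext t j
    by_cases ht : t ∈ T
    · simp only [pr, if_pos ht]
      exact hcon t ht j
    · simp only [pr, if_neg ht]
  · show val (fill e (Y i)) o = false
    rw [← Bool.not_eq_true, hfill]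
    rintro ⟨J, hJ⟩
    exact h3 i hi J hJ

end

/-- the number of variables of one copy -/
lemma card_pvar' {V : Type} [DecidableEq V] [Fintype V] {P : V → Finset V}
    (hP : ∀ v, (P v).card ≤ 2) {q : ℕ} (hq : 0 < q) :
    Fintype.card (PVar P q) ≤ Fintype.card V * q ^ 3 + q := by
  classical
  rw [Fintype.card_sum, Fintype.card_sigma, Fintype.card_fin]
  have h1 : ∀ v : V, Fintype.card ({i // i ∈ insert v (P v)} → Fin q) ≤ q ^ 3 := by
    intro v
    rw [Fintype.card_fun, Fintype.card_fin, Fintype.card_coe]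
    apply Nat.pow_le_pow_right hq
    have := Finset.card_insert_le v (P v)
    have := hP v
    omega
  have h2 : ∑ v : V, Fintype.card ({i // i ∈ insert v (P v)} → Fin q) ≤
      Fintype.card V * q ^ 3 := by
    refine (Finset.sum_le_sum (fun v _ => h1 v)).trans ?_
    rw [Finset.sum_const, Finset.card_univ, smul_eq_mul]
  omega

/-- the number of variables that is needed for depth `D` -/
def vno (D : ℕ) : ℕ := 2 ^ 42 * (D + 1) * (Nat.log 2 (D + 1) + 6) ^ 8

lemma vno_pos (D : ℕ) : 0 < vno D := by unfold vno; positivity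

lemma num_aux {x u n : ℕ} (hx : 1 ≤ x) (hn : n ≤ x * u) :
    n * (16 * u) ^ 3 + 16 * u ≤ 4112 * (x * u ^ 4) := by
  have h1 : n * (16 * u) ^ 3 ≤ (x * u) * (16 * u) ^ 3 := Nat.mul_le_mul_right _ hn
  have h2 : (x * u) * (16 * u) ^ 3 = 4096 * (x * u ^ 4) := by ring
  have h3 : u ≤ x * u ^ 4 := by
    calc u = 1 * u := (one_mul u).symm
      _ ≤ x * u ^ 4 := Nat.mul_le_mul hx (Nat.le_self_pow (by norm_num) u)
  omega

/-- The hard functions. -/
theorem hardFun (D N : ℕ) (hN : vno D ≤ N) (hD : N < 2 ^ (D + 1)) :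
    HardFun D N (N / vno D) := by
  classical
  obtain ⟨k, hk⟩ : ∃ k, k = Nat.clog 2 (D + 1) := ⟨_, rfl⟩
  have hk1 : D + 1 ≤ 2 ^ k := by rw [hk]; exact Nat.le_pow_clog (by norm_num) _
  have hk2 : 2 ^ k ≤ 2 * (D + 1) := by
    rw [hk]
    rcases Nat.eq_zero_or_pos D with h | h
    · subst h; simp
    · have := Nat.pow_pred_clog_lt_self (b := 2) (by norm_num) (x := D + 1) (by omega)
      have h2 : 1 ≤ Nat.clog 2 (D + 1) := Nat.clog_pos (by norm_num) (by omega)
      obtain ⟨c, hc⟩ : ∃ c, Nat.clog 2 (D + 1) = c + 1 := ⟨Nat.clog 2 (D + 1) - 1, by omega⟩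
      rw [hc] at this ⊢
      simp only [Nat.pred_eq_sub_one, Nat.add_sub_cancel] at this
      rw [pow_succ]
      omega
  have hk3 : k ≤ Nat.log 2 (D + 1) + 1 := by
    have h1 : D + 1 < 2 ^ (Nat.log 2 (D + 1) + 1) := Nat.lt_pow_succ_log_self (by norm_num) _
    rw [hk]
    exact Nat.clog_le_of_le_pow h1.le
  obtain ⟨V, dV, fV, P, t, lvl, h1, h2, h3, h4, h5⟩ := exists_hard k
  obtain ⟨u, hu⟩ : ∃ u, u = 128 * (k + 5) ^ 2 := ⟨_, rfl⟩
  have hu1 : 1 ≤ u := by rw [hu]; exact Nat.mul_pos (by norm_num) (by positivity)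
  have hcV : Fintype.card V ≤ 2 ^ k * u := by
    rw [hu]
    calc Fintype.card V ≤ 128 * 2 ^ k * (k + 5) ^ 2 := h3
      _ = 2 ^ k * (128 * (k + 5) ^ 2) := by ring
  have hcard0 : Fintype.card V * (16 * u) ^ 3 + 16 * u ≤ vno D := by
    refine (num_aux Nat.one_le_two_pow hcV).trans ?_
    calc 4112 * (2 ^ k * u ^ 4) = (4112 * 2 ^ 28) * (2 ^ k * (k + 5) ^ 8) := by rw [hu]; ring
      _ ≤ 2 ^ 41 * (2 * (D + 1) * (Nat.log 2 (D + 1) + 6) ^ 8) := by
        refine Nat.mul_le_mul (by norm_num) (Nat.mul_le_mul hk2 (Nat.pow_le_pow_left ?_ 8))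
        omega
      _ = vno D := by unfold vno; ring
  have hpos : 0 < vno D := vno_pos D
  obtain ⟨M, hM⟩ : ∃ M, M = N / vno D := ⟨_, rfl⟩
  have hM1 : 1 ≤ M := by
    rw [hM, Nat.le_div_iff_mul_le hpos]
    omega
  have hMN : M * vno D ≤ N := by rw [hM]; exact Nat.div_mul_le_self _ _
  rw [← hM]
  have hq0 : 0 < 16 * u := by omega
  have hcard : Fintype.card (Fin M × PVar P (16 * u)) ≤ Fintype.card (Fin N) := by
    rw [Fintype.card_prod, Fintype.card_fin, Fintype.card_fin]
    exact (Nat.mul_le_mul_left M ((card_pvar' h1 hq0).trans hcard0)).trans hMN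
  obtain ⟨e⟩ := Function.Embedding.nonempty_of_card_le hcard
  have hd : 2 ^ k - 1 + 1 = 2 ^ k := by
    have : 1 ≤ 2 ^ k := Nat.one_le_two_pow
    omega
  refine ⟨orPeb P t (16 * u) M e, ?_, ?_⟩
  · obtain ⟨L, hL, hlen, hav⟩ := orPeb_prog (t := t) hq0 h1 lvl h2 M hM1 e
    have hlen2 : L.length + 1 ≤ 3 * N := by
      have e1 : 3 * Fintype.card V * (16 * u) ^ 3 + 2 * (16 * u) + 1 ≤ 3 * vno D := by
        have : 3 * Fintype.card V * (16 * u) ^ 3 = 3 * (Fintype.card V * (16 * u) ^ 3) := by ring
        omega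
      have e2 : M * (3 * Fintype.card V * (16 * u) ^ 3 + 2 * (16 * u)) + M ≤ 3 * (M * vno D) := by
        calc M * (3 * Fintype.card V * (16 * u) ^ 3 + 2 * (16 * u)) + M =
            M * (3 * Fintype.card V * (16 * u) ^ 3 + 2 * (16 * u) + 1) := by ring
          _ ≤ M * (3 * vno D) := Nat.mul_le_mul_left _ e1
          _ = 3 * (M * vno D) := by ring
      omega
    rcases hav with ⟨p, hp⟩ | hmem
    · -- a variable: one gate
      refine ⟨1, fun _ => true, fun _ => Sum.inl p, fun _ => Sum.inl p, fun x _ => x p, 0,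
        by omega, ?_, ?_, ?_⟩
      · intro i k hk
        rcases hk with hk | hk <;> exact absurd hk (by simp)
      · intro x i
        simp
      · intro x
        rw [hp]
    · obtain ⟨b, l, r, v, o, h1, h2, h3⟩ := prog_circuit hL _ hmem
      exact ⟨L.length, b, l, r, v, o, by omega, h1, h2, h3⟩
  · intro s T w a dep hdep htop op hmon val inp hinp hval o ho
    have hinp' : ∀ x i, inp x i = fun j => Sum.elim x (val x) (a i j) :=
      fun x i => funext (fun j => hinp x i j)
    have hval' : ∀ x i, val x i = op i (fun j => Sum.elim x (val x) (a i j)) :=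
      fun x i => by rw [hval, hinp']
    have hchain : ∑ i ∈ T, w i < 2 ^ (D + 1) → ∃ x : ℕ → Fin N → Bool,
        (∀ i < M, x i ≤ x (i + 1) ∧ ∃ t ∈ T, ∃ j,
          Sum.elim (x i) (val (x i)) (a t j) ≠ Sum.elim (x (i + 1)) (val (x (i + 1))) (a t j)) ∧
          ∀ i ≤ M, val (x i) o = false :=
      dep_chain' hu1 lvl h2 h5 (by rw [hd]; exact hcV) (by rw [hd]; exact h4) D M (by omega) e
        e.injective (fun i => (hdep i).1)
        (fun i j k h => (htop i j k h).2) hmon (fun i => (hdep i).2) val hval' o ho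
    by_cases hT : ∑ i ∈ T, w i < 2 ^ (D + 1)
    · obtain ⟨x, hx, -⟩ := hchain hT
      obtain ⟨C, -, -, -, c4, c5⟩ := to_circuit_iff T w a op
        (fun i j k h => (htop i j k h).1) hmon (fun p (x : Fin N → Bool) => x p) val hval' s le_rfl
      have hTf : T.filter (fun i => i.val < s) = T :=
        Finset.filter_true_of_mem (fun i _ => i.isLt)
      rw [hTf] at c4
      rw [← c4]
      refine C.chain_le M (fun i => x i) (fun i hi => (hx i hi).1) (fun i hi h => ?_)
      obtain ⟨-, t, ht, j, hj⟩ := hx i hi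
      exact hj ((c5 _ _).mp h t ht t.isLt j)
    · have h1 : ∀ S : Finset (Fin s), 1 + ∑ i ∈ S, w i ≤ ∏ i ∈ S, (w i + 1) := by
        intro S
        induction S using Finset.induction_on with
        | empty => simp
        | insert i S hi ih =>
          rw [Finset.sum_insert hi, Finset.prod_insert hi]
          nlinarith [Nat.zero_le (w i), Nat.zero_le (∑ i ∈ S, w i)]
      have h2 := h1 T
      have h3 : M ≤ N := by rw [hM]; exact Nat.div_le_self _ _
      omega

/-- The hard functions, for circuits. -/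
theorem hard' (D N : ℕ) (hN : vno D ≤ N) (hD : N < 2 ^ (D + 1)) :
    ∃ C : Pool.Agent.H540R2.Circuit N, C.Monotone ∧ C.size ≤ 3 * N ∧
      ∀ C' : Pool.Agent.H540R2.Circuit N, C.Equiv C' → C'.depth + 1 ≤ D →
        N / vno D < 2 ^ C'.nots :=
  hard_of (lt_of_lt_of_le (vno_pos D) hN) (hardFun D N hN hD)

end Pool.Agent.W953.PT
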