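import Mathlib
import Pool.Agent.W953.PT.Neg

/-!
# Slices
-/

set_option autoImplicit false

namespace Pool.Agent.W953.PT

open Pool.Agent.H540R2 Pool.Agent.H540R2.Circuit Pool.Agent.W953.NW

variable {m r : ℕ}

/-- fixing variables -/
lemma subs_exists {N : ℕ} (C' : Circuit N) (g : Fin N → BF m)
    (hg : ∀ i, (∃ j, g i = fun y => y j) ∨ ∃ b, g i = fun _ => b) :
    ∃ C'' : Circuit m, C''.nots ≤ C'.nots ∧ C''.depth ≤ C'.depth ∧
      ∀ y, C''.eval y = C'.eval (fun i => g i y) := by
  obtain ⟨P', p1, p2⟩ := Av.app (Circuit.empty m) C' g 0 (fun i => by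
    rcases hg i with ⟨j, hj⟩ | ⟨b, hb⟩
    · rw [hj]
      exact Av.var _ j 0
    · rw [hb]
      exact Av.const _ b 0)
  obtain ⟨C, c1, c2, c3, c4⟩ := p2.circuit
  refine ⟨C, ?_, by omega, c4⟩
  have := p1.2.2
  rw [empty_nots] at this
  omega

/-- the input `y` followed by `k` ones and zeros -/
def ext (k : ℕ) (y : Fin m → Bool) : Fin (m + r) → Bool :=
  Fin.append y (fun i => decide (i.val < k))

lemma wt_ext {k : ℕ} (hk : k ≤ r) (y : Fin m → Bool) : wt (ext (r := r) k y) = k + wt y := by
  classical
  unfold wt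
  rw [Finset.card_filter, Fin.sum_univ_add, Finset.card_filter]
  have h1 : ∀ i : Fin m, (if ext (r := r) k y (Fin.castAdd r i) = true then 1 else 0 : ℕ) =
      if y i = true then 1 else 0 := by
    intro i
    simp only [ext, Fin.append_left]
  have h2 : ∀ i : Fin r, (if ext (r := r) k y (Fin.natAdd m i) = true then 1 else 0 : ℕ) =
      if i.val < k then 1 else 0 := by
    intro i
    simp only [ext, Fin.append_right, decide_eq_true_eq]
  rw [Finset.sum_congr rfl (fun i _ => h1 i), Finset.sum_congr rfl (fun i _ => h2 i)]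
  have h3 : ∑ i : Fin r, (if i.val < k then 1 else 0 : ℕ) = k := by
    rw [Fin.sum_univ_eq_sum_range (fun i => if i < k then 1 else 0) r, ← Finset.card_filter]
    have : (Finset.range r).filter (fun i => i < k) = Finset.range k := by
      ext i
      simp only [Finset.mem_filter, Finset.mem_range]
      omega
    rw [this, Finset.card_range]
  rw [h3]
  omega

/-- From all inputs to slices. -/
theorem slices_of {U s D t r : ℕ} (C : Circuit U) (h1 : C.Monotone) (h2 : C.size ≤ s)
    (h3 : ∀ C' : Circuit U, C.Equiv C' → C'.depth + 1 ≤ D → t < C'.nots) :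
    ∃ C : Circuit (U + r), C.Monotone ∧ C.size ≤ s ∧
      ∀ k ≤ r, ∀ C' : Circuit (U + r), C'.nots ≤ t → C'.depth < D →
        ∃ x, k ≤ wt x ∧ wt x ≤ k + U ∧ C'.eval x ≠ C.eval x := by
  refine ⟨ren (Fin.castAdd r) C, ?_, h2, fun k hk C' hn hd => ?_⟩
  · intro i hi a h
    have hg : (ren (Fin.castAdd r) C).gate i = renG (Fin.castAdd r) (C.gate i) := rfl
    rw [hg] at h
    have := h1 i hi
    cases hc : C.gate i with
    | and a b => rw [hc] at h; simp [renG] at h
    | or a b => rw [hc] at h; simp [renG] at h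
    | not a => exact this a hc
  · by_contra hcon
    push Not at hcon
    obtain ⟨C'', c1, c2, c3⟩ := subs_exists (m := U) C'
      (fun i y => ext (r := r) k y i) (fun i => by
      refine Fin.addCases (fun j => ?_) (fun j => ?_) i
      · left
        exact ⟨j, funext fun y => by simp only [ext, Fin.append_left]⟩
      · right
        exact ⟨decide (j.val < k), funext fun y => by simp only [ext, Fin.append_right]⟩)
    have h4 := h3 C'' (fun y => by
      have hw := wt_ext (r := r) hk y
      have hy := wt_le y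
      rw [c3]
      show C.eval y = C'.eval (ext (r := r) k y)
      rw [hcon _ (by omega) (by omega)]
      symm
      apply ren_eval
      intro i _
      simp only [ext, Fin.append_left]) (by omega)
    omega

/-- The lower bound on slices. -/
theorem hard_slices (D t r U : ℕ) (hU : U = 2 ^ t * vno D) (hD : U < 2 ^ (D + 1)) :
    ∃ C : Circuit (U + r), C.Monotone ∧ C.size ≤ 3 * U ∧
      ∀ k ≤ r, ∀ C' : Circuit (U + r), C'.nots ≤ t → C'.depth < D →
        ∃ x, k ≤ wt x ∧ wt x ≤ k + U ∧ C'.eval x ≠ C.eval x := by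
  have hv := vno_pos D
  have hU' : vno D ≤ U := by rw [hU]; exact Nat.le_mul_of_pos_left _ (by positivity)
  obtain ⟨C, h1, h2, h3⟩ := hard' D U hU' hD
  refine slices_of C h1 h2 (fun C' he hd => ?_)
  have h4 := h3 C' he hd
  have h5 : U / vno D = 2 ^ t := Nat.div_eq_of_eq_mul_left hv hU
  rw [h5] at h4
  exact (Nat.pow_lt_pow_iff_right (by norm_num)).mp h4

end Pool.Agent.W953.PT
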