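import Mathlib
import Pool.Agent.W953.NW.Eqv

/-!
# Equivalences: `t` NOT gates on `2 ^ t w (log n) ^ (i - 1)` slices
-/

set_option autoImplicit false

namespace Pool.Agent.W953.PT

open Pool.Agent.H540R2 Pool.Agent.H540R2.Circuit Pool.Agent.W953.NW

variable {n : ℕ}

/-- `t` NOT gates on `2 ^ t (w (log n) ^ (i - 1) + 1)` slices, for all `t` -/
def Many (i w : ℕ) : Prop :=
  ∃ c : ℕ, ∀ (S n : ℕ) (C : Circuit n), 2 ≤ S → n ≤ S → C.size ≤ S → MonFun C →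
    ∀ k t : ℕ, ∃ C' : Circuit n, C'.nots ≤ t ∧
      C'.depth ≤ c * Nat.log 2 S ^ i ∧ C'.size ≤ 2 ^ (c * Nat.log 2 S ^ i) ∧
      ∀ x, k ≤ wt x → wt x < k + 2 ^ t * (w * Nat.log 2 n ^ (i - 1) + 1) →
        C'.eval x = C.eval x

/-- some number of NOT gates on some number of slices -/
def Some' (i : ℕ) (t w : ℕ → ℕ) : Prop :=
  ∃ c : ℕ, ∀ (S n : ℕ) (C : Circuit n), 2 ≤ S → n ≤ S → C.size ≤ S → C.Monotone →
    ∀ k : ℕ, ∃ C' : Circuit n, C'.nots ≤ t n ∧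
      C'.depth ≤ c * Nat.log 2 S ^ i ∧ C'.size ≤ 2 ^ (c * Nat.log 2 S ^ i) ∧
      ∀ x, k ≤ wt x → wt x ≤ k + w n → C'.eval x = C.eval x

theorem many_of_polylogDepth {i : ℕ} (hi : 1 ≤ i) (h : PolylogDepth i) (w : ℕ) : Many i w := by
  obtain ⟨c, hc⟩ := h
  refine ⟨c + 31 * (w + 1) + 6 + (2 + ((3 * w + ((2 + 2 + 31) + (1 + c) + 1)) +
    31 + 1 + 6 + 1)), fun S n C hS hn hCS hC k t => ?_⟩
  obtain ⟨C₁, h1, h2, h3⟩ := hc n (pad C S hCS) hS
  have hsz : (pad C S hCS).size = S := rfl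
  rw [hsz] at h2 h3
  have h4 : ∀ x, C₁.eval x = C.eval x := fun x => by
    rw [← h1 x, pad_eval]
  have hmon : ∀ x y : Fin n → Bool, (∀ i, x i ≤ y i) → C₁.eval x ≤ C₁.eval y := by
    intro x y hxy
    rw [h4, h4]
    exact hC x y hxy
  have hlog : 1 ≤ Nat.log 2 S := Nat.log_pos (by norm_num) hS
  have hlogn : Nat.log 2 n ≤ Nat.log 2 S := Nat.log_mono_right hn
  have hΛ := lam_pos hS i
  have hΛ1 := lam_le hS hi
  obtain ⟨W, hW⟩ : ∃ W, W = w * Nat.log 2 n ^ (i - 1) := ⟨_, rfl⟩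
  have hWle : W ≤ w * Nat.log 2 S ^ (i - 1) := by
    rw [hW]
    exact Nat.mul_le_mul_left _ (Nat.pow_le_pow_left hlogn _)
  obtain ⟨T, hT⟩ : ∃ T, T = min t (Nat.log 2 n + 1) := ⟨_, rfl⟩
  have hT1 : T ≤ t := by omega
  have hT2 : T ≤ Nat.log 2 n + 1 := by omega
  obtain ⟨C', e1, e2, e3, e4⟩ := nots_windows hmon (LC.of_circuit C₁) k W T
  refine ⟨C', e1.trans hT1, e2.trans ?_, e3.trans ?_, fun x hx1 hx2 => ?_⟩
  · have h5 : W + 1 ≤ (w + 1) * Nat.log 2 S ^ (i - 1) := by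
      have := lam_pos hS (i - 1)
      have e : (w + 1) * Nat.log 2 S ^ (i - 1) = w * Nat.log 2 S ^ (i - 1) +
        Nat.log 2 S ^ (i - 1) := by ring
      omega
    have h6 : (W + 1) * (tde n + 1) ≤ 31 * (w + 1) * Nat.log 2 S ^ i := by
      calc (W + 1) * (tde n + 1) ≤
          (w + 1) * Nat.log 2 S ^ (i - 1) * (31 * Nat.log 2 S) :=
            Nat.mul_le_mul h5 (tde_le hS hn)
        _ = 31 * (w + 1) * (Nat.log 2 S * Nat.log 2 S ^ (i - 1)) := by ring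
        _ = 31 * (w + 1) * Nat.log 2 S ^ i := by
          rw [← pow_succ', show i - 1 + 1 = i by omega]
    have h7 : (c + 31 * (w + 1) + 6 + (2 + ((3 * w + ((2 + 2 + 31) + (1 + c) + 1)) +
        31 + 1 + 6 + 1))) * Nat.log 2 S ^ i =
        c * Nat.log 2 S ^ i + 31 * (w + 1) * Nat.log 2 S ^ i + 6 * Nat.log 2 S ^ i +
          (2 + ((3 * w + ((2 + 2 + 31) + (1 + c) + 1)) + 31 + 1 + 6 + 1)) *
            Nat.log 2 S ^ i := by ring
    rw [h7]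
    omega
  · have b1 : 2 * C₁.size ≤ 2 ^ ((1 + c) * Nat.log 2 S ^ i) := by
      refine qb_mul ?_ h3
      calc 2 = 2 ^ 1 := rfl
        _ ≤ 2 ^ (1 * Nat.log 2 S ^ i) := Nat.pow_le_pow_right (by norm_num) (by omega)
    have b2 := qb_wsz hS hi hn b1 hWle
    have b3 : 2 ^ T ≤ 2 ^ (2 * Nat.log 2 S ^ i) :=
      Nat.pow_le_pow_right (by norm_num) (by omega)
    have b4 := qb_add hΛ (qb_add hΛ b2 (qb_tde hS hi hn)) (qb_const hΛ 6)
    refine (qb_mul b3 b4).trans (Nat.pow_le_pow_right (by norm_num)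
      (Nat.mul_le_mul_right _ ?_))
    omega
  · rw [← h4]
    apply e4 x hx1
    rw [← hW] at hx2
    rcases le_total t (Nat.log 2 n + 1) with h | h
    · have : T = t := by omega
      rw [this, Nat.mul_comm]
      exact hx2
    · have hT3 : T = Nat.log 2 n + 1 := by omega
      have h5 : n < 2 ^ T := by
        rw [hT3]
        exact Nat.lt_pow_succ_log_self (by norm_num) n
      have h6 : 2 ^ T ≤ (W + 1) * 2 ^ T := Nat.le_mul_of_pos_left _ (Nat.succ_pos W)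
      have h7 := wt_le x
      omega

theorem polylogDepth_of_some {i : ℕ} (hi : 1 ≤ i) {t w : ℕ → ℕ} (h : Some' i t w) :
    PolylogDepth i := by
  apply polylogDepth_of_slice hi
  obtain ⟨c, hc⟩ := h
  refine ⟨c, fun S n C hS hn hCS hC k => ?_⟩
  obtain ⟨C', -, h2, h3, h4⟩ := hc S n C hS hn hCS hC k
  exact ⟨C', h2, h3, fun x hx => h4 x hx.ge (by omega)⟩

theorem some_of_fewNots {i : ℕ} {K : ℕ → ℕ} (h : FewNots i (fun _ C => MonFun C) K) :
    Some' i (fun n => Nat.log 2 n) (fun n => n) := by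
  obtain ⟨c, hc⟩ := h
  refine ⟨c, fun S n C hS hn hCS hC k => ?_⟩
  obtain ⟨C', h1, h5, h2, h3⟩ := hc S n C hS hn hCS (monFun_of_monotone hC)
  exact ⟨C', h5.trans (Nat.sub_le _ _), h2, h3, fun x _ _ => (h1 x).symm⟩

theorem some_of_many {i w : ℕ} (h : Many i w) : Some' i (fun _ => 0) (fun _ => 0) := by
  obtain ⟨c, hc⟩ := h
  refine ⟨c, fun S n C hS hn hCS hC k => ?_⟩
  obtain ⟨C', h1, h2, h3, h4⟩ := hc S n C hS hn hCS (monFun_of_monotone hC) k 0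
  refine ⟨C', h1, h2, h3, fun x hx1 hx2 => h4 x hx1 ?_⟩
  have h5 : wt x ≤ k + 0 := hx2
  rw [pow_zero, one_mul]
  omega

end Pool.Agent.W953.PT
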